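import Pool.Agent.H15.SK.Loc
import Pool.Agent.H9.LZ.Lel

/-!
# The maximum principle on annuli
-/

set_option autoImplicit false

open Set Filter Topology Metric MeasureTheory

namespace Pool.Agent.H15.SK

open Pool.Agent.H51.LZ Pool.Agent.H9.LZ

variable {n : ℕ}

theorem LP.annulus {Ω : Set (Cn n)} {f : Cn n → EReal} (hf : LP Ω f) {a v : Cn n} {r R : ℝ}
    (hr0 : 0 < r) (hrR : r < R) (hline : ∀ ζ : ℂ, ‖ζ‖ ≤ R → a + ζ • v ∈ Ω) {M κ : ℝ}
    (h1 : ∀ ζ : ℂ, ‖ζ‖ = r → f (a + ζ • v) ≤ ((M + κ * Real.log (r / R) : ℝ) : EReal))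
    (h2 : ∀ ζ : ℂ, ‖ζ‖ = R → f (a + ζ • v) ≤ (M : EReal)) {d : ℂ} (hd1 : r ≤ ‖d‖)
    (hd2 : ‖d‖ ≤ R) :
    f (a + d • v) ≤ ((M + κ * Real.log (‖d‖ / R) : ℝ) : EReal) := by
  have hR : 0 < R := hr0.trans hrR
  -- the annulus and the function
  set D : ℂ → EReal := fun ζ => f (a + ζ • v) +
    ((-(M + κ * Real.log (‖ζ‖ / R)) : ℝ) : EReal) with hD
  have hcomp : IsCompact (closedBall (0 : ℂ) R ∩ {ζ : ℂ | r ≤ ‖ζ‖}) :=
    (isCompact_closedBall _ _).inter_right (isClosed_le continuous_const continuous_norm)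
  have hlogc : ContinuousOn (fun ζ : ℂ => -(M + κ * Real.log (‖ζ‖ / R)))
      (closedBall (0 : ℂ) R ∩ {ζ : ℂ | r ≤ ‖ζ‖}) := by
    refine (continuousOn_const.add (continuousOn_const.mul (ContinuousOn.log
      (continuous_norm.div_const R).continuousOn fun ζ hζ => ?_))).neg
    have : 0 < ‖ζ‖ := lt_of_lt_of_le hr0 hζ.2
    positivity
  have husc : UpperSemicontinuousOn D (closedBall (0 : ℂ) R ∩ {ζ : ℂ | r ≤ ‖ζ‖}) := by
    have h1 : UpperSemicontinuousOn (fun ζ : ℂ => f (a + ζ • v))
        (closedBall (0 : ℂ) R ∩ {ζ : ℂ | r ≤ ‖ζ‖}) := by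
      intro ζ hζ y hy
      have h2 := hf.usc (a + ζ • v) (hline ζ (by simpa using hζ.1)) y hy
      have h3 : Tendsto (fun ζ : ℂ => a + ζ • v)
          (𝓝[closedBall (0 : ℂ) R ∩ {ζ : ℂ | r ≤ ‖ζ‖}] ζ) (𝓝[Ω] (a + ζ • v)) := by
        refine tendsto_nhdsWithin_iff.2 ⟨?_, ?_⟩
        · have : Continuous fun ζ : ℂ => a + ζ • v := by fun_prop
          exact this.continuousWithinAt
        · filter_upwards [self_mem_nhdsWithin] with ζ' hζ'
          exact hline ζ' (by simpa using hζ'.1)
      exact h3.eventually h2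
    have h2 : UpperSemicontinuousOn (fun ζ : ℂ =>
        ((-(M + κ * Real.log (‖ζ‖ / R)) : ℝ) : EReal))
        (closedBall (0 : ℂ) R ∩ {ζ : ℂ | r ≤ ‖ζ‖}) :=
      (continuous_coe_real_ereal.comp_continuousOn hlogc).upperSemicontinuousOn
    refine h1.add' h2 fun ζ hζ => ?_
    exact EReal.continuousAt_add (Or.inr (EReal.coe_ne_bot _)) (Or.inr (EReal.coe_ne_top _))
  have htop : ∀ ζ ∈ closedBall (0 : ℂ) R ∩ {ζ : ℂ | r ≤ ‖ζ‖}, D ζ ≠ ⊤ := by
    intro ζ hζ
    refine (EReal.add_lt_top ?_ (EReal.coe_ne_top _)).ne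
    exact hf.top _ (hline ζ (by simpa using hζ.1))
  have key := max_principle (K := closedBall (0 : ℂ) R ∩ {ζ : ℂ | r ≤ ‖ζ‖})
    (W := {ζ : ℂ | r < ‖ζ‖ ∧ ‖ζ‖ < R}) hcomp husc htop (c := 0) ?_ ?_ d ?_
  · -- conclusion
    simp only [hD] at key
    have h1 := add_le_add_left key ((M + κ * Real.log (‖d‖ / R) : ℝ) : EReal)
    rw [add_assoc, ← EReal.coe_add] at h1
    simpa using h1
  · -- the boundary
    intro ζ hζ hζW
    have hζR : ‖ζ‖ ≤ R := by simpa using hζ.1
    have hζr : r ≤ ‖ζ‖ := hζ.2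
    have hcases : ‖ζ‖ = r ∨ ‖ζ‖ = R := by
      by_contra hcon
      push Not at hcon
      exact hζW ⟨lt_of_le_of_ne hζr (Ne.symm hcon.1), lt_of_le_of_ne hζR hcon.2⟩
    rcases hcases with h | h
    · calc D ζ ≤ ((M + κ * Real.log (r / R) : ℝ) : EReal) +
            ((-(M + κ * Real.log (‖ζ‖ / R)) : ℝ) : EReal) := add_le_add_left (h1 ζ h) _
        _ = ((0 : ℝ) : EReal) := by
            rw [h, ← EReal.coe_add]
            congr 1
            ring
    · calc D ζ ≤ (M : EReal) + ((-(M + κ * Real.log (‖ζ‖ / R)) : ℝ) : EReal) :=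
            add_le_add_left (h2 ζ h) _
        _ = ((0 : ℝ) : EReal) := by
            rw [h, div_self hR.ne', Real.log_one, ← EReal.coe_add]
            congr 1
            ring
  · -- the sub-mean value inequality
    intro ζ hζW hζ
    have h0 : 0 < min (‖ζ‖ - r) (R - ‖ζ‖) :=
      lt_min (sub_pos.2 hζW.1) (sub_pos.2 hζW.2)
    set ρ : ℝ := min (‖ζ‖ - r) (R - ‖ζ‖) with hρ
    have hρ1 : ρ ≤ ‖ζ‖ - r := min_le_left _ _
    have hρ2 : ρ ≤ R - ‖ζ‖ := min_le_right _ _
    have hcb : ∀ w : ℂ, ‖w - ζ‖ ≤ ρ → ‖w‖ ≤ R ∧ r ≤ ‖w‖ := by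
      intro w hw
      have h1 : ‖w‖ ≤ ‖ζ‖ + ‖w - ζ‖ := by
        calc ‖w‖ = ‖ζ + (w - ζ)‖ := by congr 1; ring
          _ ≤ _ := norm_add_le _ _
      have h2 : ‖ζ‖ ≤ ‖w‖ + ‖w - ζ‖ := by
        calc ‖ζ‖ = ‖w - (w - ζ)‖ := by congr 1; ring
          _ ≤ _ := norm_sub_le _ _
      constructor <;> linarith
    refine ⟨ρ, h0, fun w hw => ?_, fun b hb hDb => ?_⟩
    · have h1 := hcb w (by rw [mem_sphere, dist_eq_norm] at hw; exact hw.le)
      exact ⟨by simpa using h1.1, h1.2⟩
    · -- the disc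
      have hdisc : ∀ z : ℂ, ‖z‖ ≤ 1 → (a + ζ • v) + z • ((ρ : ℂ) • v) ∈ Ω := by
        intro z hz
        have h1 : (a + ζ • v) + z • ((ρ : ℂ) • v) = a + (ζ + ρ * z) • v := by
          rw [smul_smul, add_assoc, ← add_smul]
          congr 3
          ring
        rw [h1]
        refine hline _ (hcb _ ?_).1
        rw [add_sub_cancel_left, norm_mul, Complex.norm_real, Real.norm_of_nonneg h0.le]
        calc ρ * ‖z‖ ≤ ρ * 1 := mul_le_mul_of_nonneg_left hz h0.le
          _ = ρ := mul_one _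
      set b' : ℂ → ℝ := fun z => b (ρ * z + ζ) + (M + κ * Real.log (‖ρ * z + ζ‖ / R))
        with hb'
      have hmem : ∀ z ∈ sphere (0 : ℂ) 1, ρ * z + ζ ∈ sphere ζ ρ := by
        intro z hz
        have hz1 : ‖z‖ = 1 := by simpa using hz
        rw [mem_sphere, dist_eq_norm, add_sub_cancel_right, norm_mul, Complex.norm_real,
          Real.norm_of_nonneg h0.le, hz1, mul_one]
      have hpos : ∀ z ∈ sphere (0 : ℂ) 1, 0 < ‖ρ * z + ζ‖ := by
        intro z hz
        have h1 := hmem z hz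
        rw [mem_sphere, dist_eq_norm] at h1
        exact lt_of_lt_of_le hr0 (hcb _ h1.le).2
      have hb'c : ContinuousOn b' (sphere 0 1) := by
        refine ContinuousOn.add (hb.comp (by fun_prop) hmem) ?_
        refine continuousOn_const.add (continuousOn_const.mul (ContinuousOn.log
          (by fun_prop) fun z hz => ?_))
        have := hpos z hz
        positivity
      have hle : ∀ z ∈ sphere (0 : ℂ) 1,
          f ((a + ζ • v) + z • ((ρ : ℂ) • v)) ≤ (b' z : EReal) := by
        intro z hz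
        have h1 : (a + ζ • v) + z • ((ρ : ℂ) • v) = a + (ρ * z + ζ) • v := by
          rw [smul_smul, add_assoc, ← add_smul]
          congr 2
          ring
        rw [h1]
        have h2 := hDb _ (hmem z hz)
        simp only [hD] at h2
        have h3 := add_le_add_left h2 ((M + κ * Real.log (‖ρ * z + ζ‖ / R) : ℝ) : EReal)
        rw [add_assoc, ← EReal.coe_add] at h3
        simpa [hb'] using h3
      have h1 := hf.sub _ _ hdisc b' hb'c hle
      have hcirc1 : CircleIntegrable b ζ ρ := by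
        refine ContinuousOn.circleIntegrable h0.le hb
      have hlogcirc : ContinuousOn (fun z : ℂ => Real.log ‖z‖) (sphere ζ ρ) := by
        refine ContinuousOn.log continuous_norm.continuousOn fun z hz => ?_
        rw [mem_sphere, dist_eq_norm] at hz
        exact (lt_of_lt_of_le hr0 (hcb _ hz.le).2).ne'
      have h2 : Real.circleAverage b' 0 1 =
          Real.circleAverage b ζ ρ + (M + κ * Real.log (‖ζ‖ / R)) := by
        have e1 : Real.circleAverage b' 0 1 = Real.circleAverage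
            (fun z => b z + (M + κ * Real.log (‖z‖ / R))) ζ ρ := by
          rw [Real.circleAverage_eq_circleAverage_zero_one (f := fun z =>
            b z + (M + κ * Real.log (‖z‖ / R)))]
        have e2 : Real.circleAverage (fun z => b z + (M + κ * Real.log (‖z‖ / R))) ζ ρ =
            Real.circleAverage (fun z => b z +
              ((M - κ * Real.log R) + κ • Real.log ‖z‖)) ζ ρ := by
          refine Real.circleAverage_congr_sphere fun z hz => ?_
          rw [abs_of_pos h0, mem_sphere, dist_eq_norm] at hz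
          have hz0 := lt_of_lt_of_le hr0 (hcb _ hz.le).2
          simp only [smul_eq_mul]
          rw [Real.log_div hz0.ne' hR.ne']
          ring
        have hsm : ContinuousOn (fun z : ℂ => κ • Real.log ‖z‖) (sphere ζ ρ) :=
          hlogcirc.const_smul κ
        have hI : CircleIntegrable (fun z : ℂ => κ • Real.log ‖z‖) ζ ρ :=
          ContinuousOn.circleIntegrable h0.le hsm
        have hI' : CircleIntegrable (fun z : ℂ =>
            (M - κ * Real.log R) + κ • Real.log ‖z‖) ζ ρ :=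
          ContinuousOn.circleIntegrable h0.le (continuousOn_const.add hsm)
        rw [e1, e2, Real.circleAverage_fun_add hcirc1 hI',
          Real.circleAverage_fun_add (circleIntegrable_const _ _ _) hI,
          Real.circleAverage_const, Real.circleAverage_fun_smul, circleAverage_log_norm h0
            (by linarith), smul_eq_mul, Real.log_div (by linarith [hζW.1]) hR.ne']
        ring
      rw [h2] at h1
      calc D ζ ≤ ((Real.circleAverage b ζ ρ + (M + κ * Real.log (‖ζ‖ / R)) : ℝ) : EReal) +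
            ((-(M + κ * Real.log (‖ζ‖ / R)) : ℝ) : EReal) := add_le_add_left h1 _
        _ = ((Real.circleAverage b ζ ρ : ℝ) : EReal) := by
            rw [← EReal.coe_add]
            congr 1
            ring
  · exact ⟨by simpa using hd2, hd1⟩

/-- the maximum on balls is a convex function of the logarithm of the radius -/
theorem LP.mid {Ω : Set (Cn n)} {f : Cn n → EReal} (hf : LP Ω f) {z : Cn n} {s : ℝ} (hs : 0 < s)
    (hΩ : closedBall z (2 * s) ⊆ Ω) {A B : ℝ}
    (hA : ∀ w ∈ closedBall z (s / 2), f w ≤ (A : EReal))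
    (hB : ∀ w ∈ closedBall z (2 * s), f w ≤ (B : EReal)) :
    ∀ w ∈ closedBall z s, f w ≤ (((A + B) / 2 : ℝ) : EReal) := by
  intro w hw
  rw [mem_closedBall, dist_eq_norm] at hw
  have hwB : f w ≤ (B : EReal) := hB w (by rw [mem_closedBall, dist_eq_norm]; linarith)
  by_cases hAB : B ≤ A
  · exact hwB.trans (by exact_mod_cast (by linarith : B ≤ (A + B) / 2))
  push Not at hAB
  by_cases ht : ‖w - z‖ ≤ s / 2
  · exact (hA w (by rw [mem_closedBall, dist_eq_norm]; exact ht)).trans
      (by exact_mod_cast (by linarith : A ≤ (A + B) / 2))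
  push Not at ht
  set t : ℝ := ‖w - z‖ with htd
  have ht0 : 0 < t := by linarith
  set v : Cn n := ((t : ℂ)⁻¹) • (w - z) with hv
  have hv1 : ‖v‖ = 1 := by
    rw [hv, norm_smul, norm_inv, Complex.norm_real, Real.norm_of_nonneg ht0.le, ← htd]
    exact inv_mul_cancel₀ ht0.ne'
  have hdv : z + (t : ℂ) • v = w := by
    rw [hv, smul_smul, mul_inv_cancel₀ (by exact_mod_cast ht0.ne'), one_smul]
    abel
  clear_value v
  have hmem : ∀ ζ : ℂ, z + ζ • v ∈ closedBall z ‖ζ‖ := by
    intro ζ
    rw [mem_closedBall, dist_eq_norm, add_sub_cancel_left, norm_smul, hv1, mul_one]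
  have hlog4 : Real.log ((s / 2) / (2 * s)) = -Real.log 4 := by
    rw [← Real.log_inv]
    congr 1
    field_simp
    norm_num
  have hl4 : 0 < Real.log 4 := Real.log_pos (by norm_num)
  have key := hf.annulus (a := z) (v := v) (r := s / 2) (R := 2 * s) (by positivity) (by linarith)
    (fun ζ hζ => hΩ (closedBall_subset_closedBall hζ (hmem ζ))) (M := B)
    (κ := (B - A) / Real.log 4) (fun ζ hζ => ?_) (fun ζ hζ => ?_) (d := (t : ℂ)) ?_ ?_
  · rw [hdv, Complex.norm_real, Real.norm_of_nonneg ht0.le] at key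
    refine key.trans ?_
    have h1 : Real.log (t / (2 * s)) ≤ -(Real.log 4 / 2) := by
      have h2 : Real.log 4 / 2 = Real.log 2 := by
        rw [show (4 : ℝ) = 2 ^ 2 by norm_num, Real.log_pow]
        push_cast
        ring
      rw [h2, ← Real.log_inv]
      refine Real.log_le_log (by positivity) ?_
      rw [div_le_iff₀ (by positivity)]
      linarith
    have h2 : (B - A) / Real.log 4 * Real.log (t / (2 * s)) ≤ (B - A) / Real.log 4 * (-(Real.log 4 / 2)) :=
      mul_le_mul_of_nonneg_left h1 (div_nonneg (by linarith) hl4.le)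
    have h3 : (B - A) / Real.log 4 * (-(Real.log 4 / 2)) = -(B - A) / 2 := by
      field_simp
    have h4 : B + (B - A) / Real.log 4 * Real.log (t / (2 * s)) ≤ (A + B) / 2 := by
      rw [h3] at h2
      linarith
    exact_mod_cast h4
  · have h1 := hA (z + ζ • v) (by rw [← hζ]; exact hmem ζ)
    refine h1.trans (le_of_eq ?_)
    rw [hlog4]
    congr 1
    field_simp
    ring
  · exact hB _ (by rw [← hζ]; exact hmem ζ)
  · rw [Complex.norm_real, Real.norm_of_nonneg ht0.le]
    exact ht.le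
  · rw [Complex.norm_real, Real.norm_of_nonneg ht0.le]
    linarith

end Pool.Agent.H15.SK
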