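import Pool.Agent.H51.LZ.Ch

/-!
# Plurisubharmonic functions on subsets of `ℂ^n` (affine discs)
-/

set_option autoImplicit false

open Set Filter Topology Metric MeasureTheory
open scoped Manifold

namespace Pool.Agent.H15.SK

open Pool.Agent.H51.LZ

/-- `f` is plurisubharmonic on `Ω` (sub-mean value inequality on affine discs). -/
structure LP {n : ℕ} (Ω : Set (Cn n)) (f : Cn n → EReal) : Prop where
  usc : UpperSemicontinuousOn f Ω
  top : ∀ z ∈ Ω, f z ≠ ⊤
  sub : ∀ a v : Cn n, (∀ z : ℂ, ‖z‖ ≤ 1 → a + z • v ∈ Ω) → ∀ b : ℂ → ℝ,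
    ContinuousOn b (sphere 0 1) → (∀ z ∈ sphere (0 : ℂ) 1, f (a + z • v) ≤ (b z : EReal)) →
    f a ≤ ((Real.circleAverage b 0 1 : ℝ) : EReal)

variable {n : ℕ}

theorem LP.mono {Ω Ω' : Set (Cn n)} {f : Cn n → EReal} (hf : LP Ω f) (h : Ω' ⊆ Ω) : LP Ω' f :=
  ⟨hf.usc.mono h, fun z hz => hf.top z (h hz), fun a v hd => hf.sub a v fun z hz => h (hd z hz)⟩

variable {X : Type} [TopologicalSpace X] [ChartedSpace (Cn n) X]

/-- plurisubharmonic functions in charts -/
theorem LP.of_psh [IsManifold 𝓘(ℂ, Cn n) 1 X] {V : Set X} {f : X → EReal} (hf : Psh n V f)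
    {e : OpenPartialHomeomorph X (Cn n)} (he : e ∈ atlas (Cn n) X) :
    LP (e.target ∩ e.symm ⁻¹' V) (fun z => f (e.symm z)) := by
  refine ⟨?_, fun z hz => hf.2.1 _ hz.2, fun a v hd b hb hbd => ?_⟩
  · intro z hz c hc
    have h2 := hf.1 (e.symm z) hz.2 c hc
    have h3 : Tendsto (fun z => e.symm z) (𝓝[e.target ∩ e.symm ⁻¹' V] z) (𝓝[V] (e.symm z)) := by
      refine tendsto_nhdsWithin_iff.2 ⟨(e.continuousOn_symm z hz.1).mono inter_subset_left, ?_⟩
      filter_upwards [self_mem_nhdsWithin] with z' hz'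
      exact hz'.2
    exact h3.eventually h2
  · have h1 : IsDisc n V (fun z : ℂ => e.symm (a + z • v)) := isDisc_affine he a v hd
    have h2 := hf.2.2 _ h1 b hb hbd
    simpa using h2

end Pool.Agent.H15.SK
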