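import Pool.Agent.H15.SK.Fin
import Pool.Agent.H36.LZ.Kernel

/-!
# Skoda: if all Lelong numbers are zero then all exponentials are integrable
-/

set_option autoImplicit false

open Set Filter Topology Metric MeasureTheory
open scoped Manifold ENNReal NNReal

namespace Pool.Agent.H15.SK

open Pool.Agent.H51.LZ Pool.Agent.H36.LZ

variable {n : ℕ} {X : Type} [TopologicalSpace X] [ChartedSpace (Cn n) X]

/-- **Skoda's theorem for Lelong number zero.** -/
theorem exp_integrable [CompactSpace X] [IsManifold 𝓘(ℂ, Cn n) 1 X] [MeasurableSpace X]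
    [BorelSpace X] {μ : Measure X} (hμ : GoodMeasure n μ) {φ : X → EReal} {V : X → Set X}
    {u : X → X → ℝ} (hV : ∀ p, IsOpen (V p)) (hp : ∀ p, p ∈ V p)
    (hu : ∀ p, ContinuousOn (u p) (V p))
    (hpsh : ∀ p, Psh n (V p) (fun x => (u p x : EReal) + φ x)) (hz : ∀ x, ZeroLelongAt n φ x)
    (c : ℝ) : ∫⁻ x, EReal.exp (-((c : EReal) * φ x)) ∂μ < ⊤ :=
  exp_integrable_of_kernel (fun f a p ρ => kernel n f a p ρ) hμ hV hp hu hpsh hz c

/-- the local form, in every chart of the atlas -/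
theorem exp_integrable_local [IsManifold 𝓘(ℂ, Cn n) 1 X] {φ : X → EReal} {V : Set X}
    {u : X → ℝ} (hV : IsOpen V) (hu : ContinuousOn u V)
    (hpsh : Psh n V (fun x => (u x : EReal) + φ x)) {x : X} (hx : x ∈ V)
    {e : OpenPartialHomeomorph X (Cn n)} (he : e ∈ atlas (Cn n) X) (hxe : x ∈ e.source)
    (hz : ZeroLelongAt n φ x) (c : ℝ) :
    ∃ r : ℝ, 0 < r ∧ closedBall (e x) r ⊆ e.target ∧
      ∫⁻ z in ball (e x) r, EReal.exp (-((c : EReal) * φ (e.symm z))) < ⊤ := by
  obtain ⟨r, hr, hsub, H, -, hHi, hH⟩ := local_int (fun f a p ρ => kernel n f a p ρ) hV hu hpsh hx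
    he hxe hz c
  exact ⟨r, hr, fun z hz => (hsub hz).1,
    lt_of_le_of_lt (setLIntegral_mono' measurableSet_ball hH) hHi⟩

end Pool.Agent.H15.SK
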