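import Pool.Agent.H15.SK.Rad
import Pool.Agent.H36.LZ.Good

/-!
# Skoda: if all Lelong numbers are zero then all exponentials are integrable
-/

set_option autoImplicit false

open Set Filter Topology Metric MeasureTheory
open scoped Manifold ENNReal NNReal

namespace Pool.Agent.H15.SK

open Pool.Agent.H51.LZ Pool.Agent.H36.LZ

variable {n : ℕ}

/-- the local estimate -/
def Kernel (n : ℕ) : Prop :=
  ∀ (f : Cn n → EReal) (a p : Cn n) (ρ : ℝ), 0 < ρ → LP (closedBall a (16 * ρ)) f →
    (∀ z ∈ closedBall a (16 * ρ), f z ≤ 0) → p ∈ closedBall a ρ → ((-1 : ℝ) : EReal) ≤ f p →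
      ∫⁻ z in ball a ρ, EReal.exp (-(f z)) < ⊤

/-- a plurisubharmonic function, extended by `⊤`, is measurable -/
theorem LP.measurable {Ω : Set (Cn n)} {f : Cn n → EReal} (hf : LP Ω f) {S : Set (Cn n)}
    (hS : IsOpen S) (hSΩ : S ⊆ Ω) [DecidablePred (· ∈ S)] :
    Measurable (S.piecewise f fun _ => ⊤) := by
  refine measurable_of_Iio fun y => ?_
  have h1 : (S.piecewise f fun _ => ⊤) ⁻¹' Iio y = {z | z ∈ S ∧ f z < y} := by
    ext z
    by_cases hz : z ∈ S
    · simp [hz]
    · simp [hz]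
  rw [h1]
  refine IsOpen.measurableSet ?_
  rw [isOpen_iff_mem_nhds]
  rintro z ⟨hz1, hz2⟩
  have h2 := hf.usc z (hSΩ hz1) y hz2
  rw [eventually_nhdsWithin_iff] at h2
  filter_upwards [h2, hS.mem_nhds hz1] with w hw1 hw2
  exact ⟨hw2, hw1 (hSΩ hw2)⟩

theorem lintegral_biUnion_le {ι Y : Type} [MeasurableSpace Y] {μ : Measure Y} (t : Finset ι)
    (W : ι → Set Y) (F : Y → ℝ≥0∞) :
    ∫⁻ x in ⋃ i ∈ t, W i, F x ∂μ ≤ ∑ i ∈ t, ∫⁻ x in W i, F x ∂μ := by
  classical
  induction t using Finset.induction_on with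
  | empty => simp
  | insert i t hi ih =>
    rw [Finset.set_biUnion_insert, Finset.sum_insert hi]
    exact (lintegral_union_le _ _ _).trans (add_le_add_right ih _)

variable {X : Type} [TopologicalSpace X] [ChartedSpace (Cn n) X]

/-- the local form: a measurable majorant with finite integral -/
theorem local_int (kernel : Kernel n) [IsManifold 𝓘(ℂ, Cn n) 1 X] {φ : X → EReal} {V : Set X}
    {u : X → ℝ} (hV : IsOpen V) (hu : ContinuousOn u V)
    (hpsh : Psh n V (fun x => (u x : EReal) + φ x)) {x : X} (hx : x ∈ V)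
    {e : OpenPartialHomeomorph X (Cn n)} (he : e ∈ atlas (Cn n) X) (hxe : x ∈ e.source)
    (hz : ZeroLelongAt n φ x) (c : ℝ) :
    ∃ r : ℝ, 0 < r ∧ closedBall (e x) r ⊆ e.target ∩ e.symm ⁻¹' V ∧
      ∃ H : Cn n → ℝ≥0∞, Measurable H ∧ ∫⁻ z in ball (e x) r, H z < ⊤ ∧
        ∀ z ∈ ball (e x) r, EReal.exp (-((c : EReal) * φ (e.symm z))) ≤ H z := by
  classical
  have hLP := LP.of_psh hpsh he
  have hopen : IsOpen (e.target ∩ e.symm ⁻¹' V) :=
    e.continuousOn_symm.isOpen_inter_preimage e.open_target hV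
  have hmem : e x ∈ e.target ∩ e.symm ⁻¹' V := by
    refine ⟨e.map_source hxe, ?_⟩
    rw [mem_preimage, e.left_inv hxe]
    exact hx
  obtain ⟨R₁, hR₁, hsub₁⟩ := Metric.isOpen_iff.1 hopen _ hmem
  obtain ⟨R₀, hR₀, hR₀₁⟩ : ∃ R₀ : ℝ, 0 < R₀ ∧ R₀ < R₁ := ⟨R₁ / 2, by linarith, by linarith⟩
  have hsub : closedBall (e x) R₀ ⊆ e.target ∩ e.symm ⁻¹' V :=
    (closedBall_subset_ball hR₀₁).trans hsub₁
  have hK : IsCompact (closedBall (e x) R₀) := isCompact_closedBall _ _
  have hKne : (closedBall (e x) R₀).Nonempty := ⟨e x, mem_closedBall_self hR₀.le⟩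
  -- bounds
  obtain ⟨M₀, hM₀⟩ : ∃ M₀ : ℝ, ∀ z ∈ closedBall (e x) R₀,
      (u (e.symm z) : EReal) + φ (e.symm z) ≤ (M₀ : EReal) := by
    obtain ⟨z₁, hz₁, hmax⟩ := (hLP.usc.mono hsub).exists_isMaxOn hKne hK
    have h1 := hLP.top z₁ (hsub hz₁)
    refine ⟨((u (e.symm z₁) : EReal) + φ (e.symm z₁)).toReal, fun z hz => ?_⟩
    exact (hmax hz).trans (EReal.le_coe_toReal h1)
  obtain ⟨U, hU⟩ : ∃ U : ℝ, ∀ z ∈ closedBall (e x) R₀, |u (e.symm z)| ≤ U := by
    have h1 : ContinuousOn (fun z => u (e.symm z)) (closedBall (e x) R₀) :=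
      hu.comp (e.continuousOn_symm.mono fun z hz => (hsub hz).1) fun z hz => (hsub hz).2
    obtain ⟨U, hU⟩ := hK.exists_bound_of_continuousOn h1
    exact ⟨U, fun z hz => by simpa using hU z hz⟩
  by_cases hc : 0 < c
  · -- the Lelong number of `u + φ`
    have hzero : ∀ ε : ℝ, 0 < ε → ∀ᶠ r : ℝ in 𝓝[>] 0, ∃ y, ‖y - e x‖ ≤ r ∧
        ((ε * Real.log r : ℝ) : EReal) ≤ (u (e.symm y) : EReal) + φ (e.symm y) := by
      intro ε hε
      have h1 := hz e he hxe (ε / 2) (by positivity)
      have h2 : ∀ᶠ r : ℝ in 𝓝[>] 0, r < R₀ := nhdsWithin_le_nhds (Iio_mem_nhds hR₀)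
      have h3 : ∀ᶠ r : ℝ in 𝓝[>] 0, Real.log r ≤ -(2 / ε) * U :=
        Real.tendsto_log_nhdsGT_zero.eventually (eventually_le_atBot _)
      filter_upwards [h1, h2, h3] with r hr1 hr2 hr3
      obtain ⟨y, hye, hy1, hy2⟩ := hr1
      refine ⟨e y, hy1, ?_⟩
      rw [e.left_inv hye]
      have h4 : e y ∈ closedBall (e x) R₀ := by
        rw [mem_closedBall, dist_eq_norm]
        exact hy1.trans hr2.le
      have h5 := hU _ h4
      rw [e.left_inv hye] at h5
      have h6 := (abs_le.1 h5).1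
      have h7 : ε / 2 * Real.log r ≤ -U := by
        calc ε / 2 * Real.log r ≤ ε / 2 * (-(2 / ε) * U) :=
              mul_le_mul_of_nonneg_left hr3 (by positivity)
          _ = -U := by field_simp
      calc ((ε * Real.log r : ℝ) : EReal) ≤ ((u y + ε / 2 * Real.log r : ℝ) : EReal) := by
            rw [EReal.coe_le_coe_iff]
            linarith
        _ = (u y : EReal) + ((ε / 2 * Real.log r : ℝ) : EReal) := by rw [EReal.coe_add]
        _ ≤ _ := add_le_add_right hy2 _
    obtain ⟨r, hr, hr16, M, hM, p, hp, hpM⟩ := radius hR₀ hM₀ hzero (δ := 1 / c) (by positivity)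
    have hsub16 : closedBall (e x) (16 * r) ⊆ closedBall (e x) R₀ :=
      closedBall_subset_closedBall hr16
    have hball : ball (e x) r ⊆ closedBall (e x) (16 * r) :=
      ball_subset_closedBall.trans (closedBall_subset_closedBall (by linarith))
    have hLPf : LP (closedBall (e x) (16 * r))
        (fun z => aff c M ((u (e.symm z) : EReal) + φ (e.symm z))) :=
      (hLP.mono (hsub16.trans hsub)).aff hc M
    have hker := kernel _ (e x) p r hr hLPf (fun z hz' => ?_) hp ?_
    · refine ⟨r, hr, ((closedBall_subset_closedBall (by linarith)).trans hsub16).trans hsub,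
        fun z => ENNReal.ofReal (Real.exp (c * (U - M))) * EReal.exp (-((ball (e x) r).piecewise
          (fun z => aff c M ((u (e.symm z) : EReal) + φ (e.symm z))) (fun _ => ⊤) z)), ?_, ?_, ?_⟩
      · exact (EReal.measurable_exp.comp (hLPf.measurable isOpen_ball hball).neg).const_mul _
      · rw [lintegral_const_mul' _ _ ENNReal.ofReal_ne_top]
        refine ENNReal.mul_lt_top ENNReal.ofReal_lt_top ?_
        refine lt_of_le_of_lt (le_of_eq ?_) hker
        refine setLIntegral_congr_fun measurableSet_ball fun z hz' => ?_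
        simp only [piecewise_eq_of_mem _ _ _ hz']
      · intro z hz'
        simp only [piecewise_eq_of_mem _ _ _ hz']
        rw [exp_aff hc M (u (e.symm z)) (φ (e.symm z))]
        refine mul_le_mul_left (ENNReal.ofReal_le_ofReal (Real.exp_le_exp.2
          (mul_le_mul_of_nonneg_left ?_ hc.le))) _
        have := (abs_le.1 (hU z (hsub16 (hball hz')))).2
        linarith
    · have h1 := (aff_le_iff hc M ((u (e.symm z) : EReal) + φ (e.symm z)) 0).2
        (by simpa using hM z hz')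
      exact_mod_cast h1
    · rw [le_aff_iff hc]
      refine le_trans (le_of_eq ?_) hpM
      congr 1
      ring
  · -- `c ≤ 0`
    rw [not_lt] at hc
    refine ⟨R₀, hR₀, hsub, fun _ => ENNReal.ofReal (Real.exp (-c * |M₀ + U|)), measurable_const,
      ?_, ?_⟩
    · rw [setLIntegral_const]
      exact ENNReal.mul_lt_top ENNReal.ofReal_lt_top measure_ball_lt_top
    · intro z hz'
      have h1 := hM₀ z (ball_subset_closedBall hz')
      have h2 := (abs_le.1 (hU z (ball_subset_closedBall hz'))).1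
      rw [← EReal.exp_coe, EReal.exp_le_exp_iff]
      have h3 : φ (e.symm z) ≤ ((|M₀ + U| : ℝ) : EReal) := by
        induction hφ : φ (e.symm z) with
        | bot => exact bot_le
        | coe t =>
          rw [hφ, ← EReal.coe_add, EReal.coe_le_coe_iff] at h1
          rw [EReal.coe_le_coe_iff]
          have := le_abs_self (M₀ + U)
          linarith
        | top =>
          rw [hφ, EReal.coe_add_top] at h1
          exact absurd (top_le_iff.1 h1) (EReal.coe_ne_top _)
      have h4 : -((c : EReal) * φ (e.symm z)) = ((-c : ℝ) : EReal) * φ (e.symm z) := by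
        rw [EReal.coe_neg, EReal.neg_mul]
      rw [h4, EReal.coe_mul]
      exact mul_le_mul_of_nonneg_left h3 (by exact_mod_cast (by linarith : (0 : ℝ) ≤ -c))

/-- **Skoda's theorem for Lelong number zero.** -/
theorem exp_integrable_of_kernel (kernel : Kernel n) [CompactSpace X] [IsManifold 𝓘(ℂ, Cn n) 1 X]
    [MeasurableSpace X] [BorelSpace X] {μ : Measure X} (hμ : GoodMeasure n μ) {φ : X → EReal}
    {V : X → Set X} {u : X → X → ℝ} (hV : ∀ p, IsOpen (V p)) (hp : ∀ p, p ∈ V p)
    (hu : ∀ p, ContinuousOn (u p) (V p))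
    (hpsh : ∀ p, Psh n (V p) (fun x => (u p x : EReal) + φ x)) (hz : ∀ x, ZeroLelongAt n φ x)
    (c : ℝ) : ∫⁻ x, EReal.exp (-((c : EReal) * φ x)) ∂μ < ⊤ := by
  obtain ⟨-, hgood⟩ := hμ
  have hloc : ∀ x : X, ∃ W : Set X, IsOpen W ∧ x ∈ W ∧
      ∫⁻ y in W, EReal.exp (-((c : EReal) * φ y)) ∂μ < ⊤ := by
    intro x
    obtain ⟨O, hO, hxO, hOs, C, hC⟩ := hgood x
    set e := chartAt (Cn n) x with he
    have hxs : x ∈ e.source := mem_chart_source _ _
    obtain ⟨r, hr, hsub, H, hHm, hHi, hH⟩ := local_int kernel (hV x) (hu x) (hpsh x) (hp x)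
      (chart_mem_atlas (Cn n) x) hxs (hz x) c
    have heO : AEMeasurable e (μ.restrict O) :=
      (e.continuousOn.mono hOs).aemeasurable hO.measurableSet
    set W : Set X := O ∩ (e.source ∩ e ⁻¹' ball (e x) r) with hW
    have hWo : IsOpen W := hO.inter (e.isOpen_inter_preimage isOpen_ball)
    refine ⟨W, hWo, ⟨hxO, hxs, mem_ball_self hr⟩, ?_⟩
    have hHb : Measurable ((ball (e x) r).indicator H) := hHm.indicator measurableSet_ball
    calc ∫⁻ y in W, EReal.exp (-((c : EReal) * φ y)) ∂μ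
        ≤ ∫⁻ y in W, (ball (e x) r).indicator H (e y) ∂μ := by
          refine setLIntegral_mono' hWo.measurableSet fun y hy => ?_
          rw [indicator_of_mem (show e y ∈ ball (e x) r from hy.2.2)]
          have h1 := hH (e y) hy.2.2
          rwa [e.left_inv hy.2.1] at h1
      _ ≤ ∫⁻ y in O, (ball (e x) r).indicator H (e y) ∂μ :=
          lintegral_mono_set inter_subset_left
      _ = ∫⁻ z, (ball (e x) r).indicator H z ∂((μ.restrict O).map e) :=
          (lintegral_map' hHb.aemeasurable heO).symm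
      _ ≤ ∫⁻ z, (ball (e x) r).indicator H z ∂(C • (volume : Measure (Cn n))) :=
          lintegral_mono' hC le_rfl
      _ = (C : ℝ≥0∞) * ∫⁻ z in ball (e x) r, H z := by
          rw [lintegral_indicator measurableSet_ball, Measure.restrict_smul,
            lintegral_smul_measure]
          rfl
      _ < ⊤ := ENNReal.mul_lt_top ENNReal.coe_lt_top hHi
  choose W hWo hxW hWi using hloc
  obtain ⟨t, ht⟩ := isCompact_univ.elim_finite_subcover W hWo
    (fun x _ => mem_iUnion.2 ⟨x, hxW x⟩)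
  calc ∫⁻ x, EReal.exp (-((c : EReal) * φ x)) ∂μ
      = ∫⁻ x in (univ : Set X), EReal.exp (-((c : EReal) * φ x)) ∂μ := by
        rw [Measure.restrict_univ]
    _ ≤ ∫⁻ x in ⋃ i ∈ t, W i, EReal.exp (-((c : EReal) * φ x)) ∂μ := lintegral_mono_set ht
    _ ≤ ∑ i ∈ t, ∫⁻ x in W i, EReal.exp (-((c : EReal) * φ x)) ∂μ :=
        lintegral_biUnion_le t W _
    _ < ⊤ := ENNReal.sum_lt_top.2 fun i _ => hWi i

end Pool.Agent.H15.SK
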