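import Pool.Agent.H15.SK.Loc
import Pool.Agent.H36.LZ.Ball

/-!
# Upper semicontinuous functions: Lipschitz majorants, the sub-mean value inequality on balls
-/

set_option autoImplicit false

open Set Filter Topology Metric MeasureTheory

namespace Pool.Agent.H15.SK

open Pool.Agent.H51.LZ Pool.Agent.H36.LZ H93.PR

variable {n : ℕ}

/-! ## Lipschitz majorants -/

/-- the Lipschitz majorant -/
noncomputable def maj (K : Set (Cn n)) (g : Cn n → ℝ) (k : ℕ) (x : Cn n) : ℝ :=
  sSup ((fun y => g y - k * dist x y) '' K)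

section maj

variable {K : Set (Cn n)} {g : Cn n → ℝ} {B : ℝ}

theorem maj_bdd (hB : ∀ y ∈ K, g y ≤ B) (k : ℕ) (x : Cn n) :
    BddAbove ((fun y => g y - k * dist x y) '' K) := by
  refine ⟨B, ?_⟩
  rintro _ ⟨y, hy, rfl⟩
  have h1 := hB y hy
  have h2 : 0 ≤ (k : ℝ) * dist x y := by positivity
  simp only
  linarith

theorem le_maj (hB : ∀ y ∈ K, g y ≤ B) (k : ℕ) {x : Cn n} (hx : x ∈ K) : g x ≤ maj K g k x := by
  have h1 := le_csSup (maj_bdd hB k x) ⟨x, hx, rfl⟩
  simpa [maj] using h1

theorem maj_le (hK : K.Nonempty) (hB : ∀ y ∈ K, g y ≤ B) (k : ℕ) (x : Cn n) : maj K g k x ≤ B := by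
  refine csSup_le (hK.image _) ?_
  rintro _ ⟨y, hy, rfl⟩
  have h1 := hB y hy
  have h2 : 0 ≤ (k : ℝ) * dist x y := by positivity
  simp only
  linarith

theorem maj_continuous (hK : K.Nonempty) (hB : ∀ y ∈ K, g y ≤ B) (k : ℕ) :
    Continuous (maj K g k) := by
  have h : ∀ x x' : Cn n, maj K g k x ≤ maj K g k x' + k * dist x x' := by
    intro x x'
    refine csSup_le (hK.image _) ?_
    rintro _ ⟨y, hy, rfl⟩
    have h1 := le_csSup (maj_bdd hB k x') ⟨y, hy, rfl⟩
    have h2 : dist x' y ≤ dist x x' + dist x y := by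
      rw [dist_comm x x']
      exact dist_triangle _ _ _
    have h3 : (k : ℝ) * dist x' y ≤ k * (dist x x' + dist x y) :=
      mul_le_mul_of_nonneg_left h2 (Nat.cast_nonneg k)
    have h4 : g y - k * dist x' y ≤ maj K g k x' := h1
    simp only
    linarith
  have hL : LipschitzWith (k : NNReal) (maj K g k) := by
    refine LipschitzWith.of_le_add_mul _ fun x x' => ?_
    have := h x x'
    simpa using this
  exact hL.continuous

theorem maj_tendsto (hB : ∀ y ∈ K, g y ≤ B)
    (husc : UpperSemicontinuousOn (fun z => (g z : EReal)) K) {x : Cn n} (hx : x ∈ K) :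
    Tendsto (fun k => maj K g k x) atTop (𝓝 (g x)) := by
  rw [Metric.tendsto_atTop]
  intro ε hε
  have h1 := husc x hx ((g x + ε / 2 : ℝ) : EReal) (EReal.coe_lt_coe_iff.2 (by linarith))
  rw [eventually_nhdsWithin_iff, Metric.eventually_nhds_iff] at h1
  obtain ⟨δ, hδ, h1⟩ := h1
  obtain ⟨k₀, hk₀⟩ := exists_nat_gt ((B - g x) / δ)
  refine ⟨k₀, fun k hk => ?_⟩
  have h2 := le_maj hB k hx
  have h3 : maj K g k x ≤ g x + ε / 2 := by
    refine csSup_le (Set.Nonempty.image _ ⟨x, hx⟩) ?_
    rintro _ ⟨y, hy, rfl⟩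
    simp only
    by_cases hd : dist y x < δ
    · have h4 := h1 hd hy
      have h5 : g y < g x + ε / 2 := EReal.coe_lt_coe_iff.1 h4
      have h6 : 0 ≤ (k : ℝ) * dist x y := by positivity
      linarith
    · rw [not_lt] at hd
      have h4 := hB y hy
      have h5 : B - g x < k₀ * δ := by rwa [div_lt_iff₀ hδ] at hk₀
      have h6 : (k₀ : ℝ) * δ ≤ k * dist x y := by
        rw [dist_comm]
        exact mul_le_mul (by exact_mod_cast hk) hd hδ.le (Nat.cast_nonneg k)
      linarith
  rw [Real.dist_eq, abs_lt]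
  constructor <;> linarith

end maj

/-! ## The sub-mean value inequality -/

theorem submean_const {v : Cn n → ℝ} (hv : Continuous v) {a : Cn n} {ρ A : ℝ}
    (h : ∀ w ∈ ball (0 : Cn n) ρ, A ≤ Real.circleAverage (fun z => v (a + z • w)) 0 1) :
    (volume (ball (0 : Cn n) ρ)).toReal * A ≤ ∫ w in ball a ρ, v w := by
  set B : Measure (Cn n) := volume.restrict (ball 0 ρ) with hB
  have : IsFiniteMeasure B := ⟨by rw [hB, Measure.restrict_apply_univ]; exact measure_ball_lt_top⟩
  have hI : Integrable (fun p : ℂ × Cn n => v (a + p.1 • p.2)) (σ.prod B) := by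
    have hcont : Continuous fun p : ℂ × Cn n => v (a + p.1 • p.2) := by fun_prop
    obtain ⟨C, hC⟩ := ((isCompact_sphere (0 : ℂ) 1).prod
      (isCompact_closedBall (0 : Cn n) ρ)).exists_bound_of_continuousOn hcont.continuousOn
    refine Integrable.of_bound hcont.aestronglyMeasurable C ?_
    have h1 : ∀ᵐ p ∂(σ.prod B), ‖p.1‖ = 1 := Measure.quasiMeasurePreserving_fst.ae ae_norm
    have h2 : ∀ᵐ p ∂(σ.prod B), p.2 ∈ ball (0 : Cn n) ρ :=
      Measure.quasiMeasurePreserving_snd.ae (ae_restrict_mem measurableSet_ball)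
    filter_upwards [h1, h2] with p hp1 hp2
    exact hC p ⟨by simpa using hp1, ball_subset_closedBall hp2⟩
  have h1 : ∫ w in ball a ρ, v w = ∫ w, v (a + w) ∂B := by
    have h2 := (measurePreserving_add_left (volume : Measure (Cn n)) a).setIntegral_preimage_emb
      (measurableEmbedding_addLeft a) v (ball a ρ)
    have h3 : (fun w : Cn n => a + w) ⁻¹' ball a ρ = ball 0 ρ := by
      ext w
      simp [dist_eq_norm]
    rw [h3] at h2
    exact h2.symm
  have h2 : ∫ w, v (a + w) ∂B = ∫ s, ∫ w, v (a + s • w) ∂B ∂σ := by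
    have h3 : ∀ᵐ s ∂σ, ∫ w, v (a + s • w) ∂B = ∫ w, v (a + w) ∂B := by
      filter_upwards [ae_norm] with s hs
      exact rot_integral' (fun w => v (a + w)) hs ρ
    rw [integral_congr_ae h3]
    simp
  rw [h1, h2, integral_integral_swap hI]
  have h4 : (volume (ball (0 : Cn n) ρ)).toReal * A = ∫ _w, A ∂B := by
    rw [integral_const, smul_eq_mul, hB, measureReal_restrict_apply_univ]
    rfl
  rw [h4]
  refine integral_mono_ae (integrable_const _) hI.integral_prod_right ?_
  filter_upwards [ae_restrict_mem measurableSet_ball] with w hw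
  refine (h w hw).trans (le_of_eq ?_)
  exact av_eq (Continuous.aestronglyMeasurable (by fun_prop))

/-- the sub-mean value inequality on balls for bounded plurisubharmonic functions -/
theorem LP.submean {Ω : Set (Cn n)} {g : Cn n → ℝ} (hg : LP Ω (fun z => (g z : EReal)))
    {p : Cn n} {ρ : ℝ} (hρ : 0 < ρ) (hsub : closedBall p ρ ⊆ Ω) {m B : ℝ}
    (hm : ∀ z ∈ closedBall p ρ, m ≤ g z) (hB : ∀ z ∈ closedBall p ρ, g z ≤ B) :
    IntegrableOn g (ball p ρ) ∧
      (volume (ball (0 : Cn n) ρ)).toReal * g p ≤ ∫ w in ball p ρ, g w := by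
  have hKne : (closedBall p ρ).Nonempty := ⟨p, mem_closedBall_self hρ.le⟩
  have husc : UpperSemicontinuousOn (fun z => (g z : EReal)) (closedBall p ρ) := hg.usc.mono hsub
  have hae : ∀ᵐ w ∂(volume.restrict (ball p ρ)),
      Tendsto (fun k => maj (closedBall p ρ) g k w) atTop (𝓝 (g w)) := by
    filter_upwards [ae_restrict_mem measurableSet_ball] with w hw
    exact maj_tendsto hB husc (ball_subset_closedBall hw)
  have hmeas : ∀ k, AEStronglyMeasurable (maj (closedBall p ρ) g k)
      (volume.restrict (ball p ρ)) := fun k =>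
    (maj_continuous hKne hB k).aestronglyMeasurable
  have hgm : AEStronglyMeasurable g (volume.restrict (ball p ρ)) :=
    aestronglyMeasurable_of_tendsto_ae atTop hmeas hae
  have : IsFiniteMeasure (volume.restrict (ball p ρ)) :=
    ⟨by rw [Measure.restrict_apply_univ]; exact measure_ball_lt_top⟩
  have hbd : ∀ k, ∀ᵐ w ∂(volume.restrict (ball p ρ)),
      ‖maj (closedBall p ρ) g k w‖ ≤ |m| + |B| := by
    intro k
    filter_upwards [ae_restrict_mem measurableSet_ball] with w hw
    have h1 := hm w (ball_subset_closedBall hw)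
    have h2 := le_maj hB k (ball_subset_closedBall hw)
    have h3 := maj_le hKne hB k w
    rw [Real.norm_eq_abs, abs_le]
    have h4 := neg_abs_le m
    have h5 := le_abs_self B
    have h6 := abs_nonneg m
    have h7 := abs_nonneg B
    constructor <;> linarith
  have hbg : ∀ᵐ w ∂(volume.restrict (ball p ρ)), ‖g w‖ ≤ |m| + |B| := by
    filter_upwards [ae_restrict_mem measurableSet_ball] with w hw
    have h1 := hm w (ball_subset_closedBall hw)
    have h2 := hB w (ball_subset_closedBall hw)
    rw [Real.norm_eq_abs, abs_le]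
    have h4 := neg_abs_le m
    have h5 := le_abs_self B
    have h6 := abs_nonneg m
    have h7 := abs_nonneg B
    constructor <;> linarith
  refine ⟨Integrable.of_bound hgm _ hbg, ?_⟩
  have hlim : Tendsto (fun k => ∫ w in ball p ρ, maj (closedBall p ρ) g k w) atTop
      (𝓝 (∫ w in ball p ρ, g w)) :=
    tendsto_integral_of_dominated_convergence (fun _ => |m| + |B|) hmeas (integrable_const _)
      hbd hae
  refine ge_of_tendsto' hlim fun k => ?_
  refine submean_const (maj_continuous hKne hB k) fun w hw => ?_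
  have hin : ∀ z : ℂ, ‖z‖ ≤ 1 → p + z • w ∈ closedBall p ρ := by
    intro z hz
    rw [mem_ball_zero_iff] at hw
    rw [mem_closedBall, dist_eq_norm, add_sub_cancel_left, norm_smul]
    calc ‖z‖ * ‖w‖ ≤ 1 * ‖w‖ := mul_le_mul_of_nonneg_right hz (norm_nonneg _)
      _ ≤ ρ := by linarith
  have h1 := hg.sub p w (fun z hz => hsub (hin z hz))
    (fun z => maj (closedBall p ρ) g k (p + z • w))
    (((maj_continuous hKne hB k).comp (by fun_prop)).continuousOn) fun z hz => ?_
  · exact_mod_cast h1
  · exact_mod_cast le_maj hB k (hin z (by rw [mem_sphere_zero_iff_norm.1 hz]))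

end Pool.Agent.H15.SK
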