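import Pool.Agent.H36.LZ.Min

/-!
# A potential with minimal singularities, invariant under the stabiliser of its class
-/

set_option autoImplicit false

open Set Filter Topology Metric MeasureTheory
open scoped Manifold NNReal ENNReal

namespace Pool.Agent.H15.SK

open Pool.Agent.H51.LZ Pool.Agent.H36.LZ

variable {n : ℕ} {X : Type} [TopologicalSpace X] [ChartedSpace (Cn n) X]

/-- A POTENTIAL WITH MINIMAL SINGULARITIES, invariant under all automorphisms which preserve the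
class of `T_d`. -/
theorem exists_min_all [CompactSpace X] [ConnectedSpace X] [IsManifold 𝓘(ℂ, Cn n) 1 X]
    [MeasurableSpace X] [BorelSpace X] {μ : Measure X} (hμ : GoodMeasure n μ)
    (T : Currents n X) (d : ℕ) {φ₀ : X → EReal}
    (hφ₀ : ∀ p, Psh n (T.V p) (fun x => (T.u d p x : EReal) + φ₀ x)) :
    ∃ φ : X → EReal, (∀ p, Psh n (T.V p) (fun x => (T.u d p x : EReal) + φ x)) ∧
      (∀ g : X ≃ₜ X, MeasurePreserving g μ μ → MDifferentiable 𝓘(ℂ, Cn n) 𝓘(ℂ, Cn n) g →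
        MDifferentiable 𝓘(ℂ, Cn n) 𝓘(ℂ, Cn n) g.symm → ∀ b : X → ℝ, Continuous b →
        ∫ x, b x ∂μ = 0 → (∀ p q, Pluriharmonic n (T.V p ∩ g ⁻¹' T.V q)
          (fun x => T.u d q (g x) - T.u d p x - b x)) →
        ∀ x, φ x = (b x : EReal) + φ (g x)) ∧
      (∀ ψ : X → EReal, (∀ p, Psh n (T.V p) (fun x => (T.u d p x : EReal) + ψ x)) →
        ∃ M : ℝ, ∀ x, ψ x ≤ φ x + (M : EReal)) := by
  have : IsProbabilityMeasure μ := hμ.1
  obtain ⟨V, hV, hpV, hadm⟩ := TP.adm (T := T) (d := d)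
  obtain ⟨C, hC⟩ := sup_le_meanE hμ hV hpV
  -- the class is bounded
  have hbd : ∀ ψ ∈ Cls T d μ, ∀ x, ψ x ≤ (((1 : ℝ) + C : ℝ) : EReal) := by
    intro ψ hψ x
    obtain ⟨f, hf, hψf, hfε⟩ := hψ.2 1 one_pos
    refine (hC ψ (hadm ψ hψ.1) f hf hψf x).trans ?_
    exact_mod_cast (by linarith : ∫ y, f y ∂μ + C ≤ 1 + C)
  -- all functions are in the class after subtracting a constant
  have hin : ∀ ψ, TP T d ψ → ∃ M : ℝ, (fun x => ((-M : ℝ) : EReal) + ψ x) ∈ Cls T d μ := by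
    intro ψ hψ
    obtain ⟨M, hM⟩ := hψ.bdd
    refine ⟨M, hψ.sub_const M, fun ε hε => ⟨fun _ => 0, continuous_const, fun x => ?_, ?_⟩⟩
    · calc ((-M : ℝ) : EReal) + ψ x ≤ ((-M : ℝ) : EReal) + (M : EReal) :=
            add_le_add le_rfl (hM x)
        _ = ((0 : ℝ) : EReal) := by
            rw [← EReal.coe_add]
            congr 1
            ring
    · simpa using hε.le
  set w : Cls T d μ → X → EReal := fun ψ => ψ.1 with hw
  have : Nonempty (Cls T d μ) := by
    obtain ⟨M, hM⟩ := hin φ₀ hφ₀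
    exact ⟨⟨_, hM⟩⟩
  have hψle : ∀ ψ ∈ Cls T d μ, ∀ x, ψ x ≤ rlim ⊤ w x := fun ψ hψ x =>
    le_rlim_top w ⟨ψ, hψ⟩ x
  have hle : ∀ u : X → EReal, UpperSemicontinuous u → (∀ ψ ∈ Cls T d μ, ∀ x, ψ x ≤ u x) →
      ∀ x, rlim ⊤ w x ≤ u x := fun u hu h => rlim_top_le hu fun i x => h i.1 i.2 x
  -- plurisubharmonicity
  have hpsh : TP T d (rlim ⊤ w) := by
    intro p
    have h1 : Psh n (T.V p) (rlim ⊤ fun (i : Cls T d μ) x => (T.u d p x : EReal) + w i x) := by
      refine psh_rlim (T.isOpen_V p) (Eventually.of_forall fun i => i.2.1 p) fun x hx => ?_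
      have h2 : ContinuousAt (T.u d p) x := (T.cont d p).continuousAt ((T.isOpen_V p).mem_nhds hx)
      have h3 : ∀ᶠ y in 𝓝 x, T.u d p y < T.u d p x + 1 :=
        h2.eventually (gt_mem_nhds (by linarith))
      have h4 : ∀ᶠ q : Cls T d μ × X in ⊤ ×ˢ 𝓝 x, T.u d p q.2 < T.u d p x + 1 :=
        tendsto_snd.eventually h3
      refine ⟨(T.u d p x + 1) + (1 + C), ?_⟩
      filter_upwards [h4] with q hq
      rw [EReal.coe_add]
      exact add_le_add (by exact_mod_cast hq.le) (hbd q.1.1 q.1.2 q.2)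
    refine Psh.congr h1 fun x hx => ?_
    have h2 : ContinuousAt (T.u d p) x := (T.cont d p).continuousAt ((T.isOpen_V p).mem_nhds hx)
    exact (rlim_add (l := ⊤) (w := w) (s := fun _ y => T.u d p y)
      (h2.tendsto.comp tendsto_snd)).symm
  refine ⟨rlim ⊤ w, hpsh, fun g hgμ hg hg' b hbc hb hrel x => le_antisymm ?_ ?_, fun ψ hψ => ?_⟩
  · -- `φ ≤ b + φ ∘ g`
    refine hle (fun x => (b x : EReal) + rlim ⊤ w (g x)) (hpsh.pull hg hrel).usc ?_ x
    intro ψ hψ y
    have h1 := Cls.pull hψ (g := g.symm) hg' (hgμ.symm g.toMeasurableEquiv)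
      (b := fun x => -(b (g.symm x))) (hbc.comp g.symm.continuous).neg ?_ (rel_symm hg' hrel)
    · have h2 := hψle _ h1 (g y)
      simp only [Homeomorph.symm_apply_apply] at h2
      calc ψ y = (b y : EReal) + (((-(b y) : ℝ) : EReal) + ψ y) := by
            rw [← add_assoc, ← EReal.coe_add, add_neg_cancel, EReal.coe_zero, zero_add]
        _ ≤ (b y : EReal) + rlim ⊤ w (g y) := add_le_add le_rfl h2
    · rw [integral_neg, neg_eq_zero]
      have h3 := (hgμ.symm g.toMeasurableEquiv).integral_comp g.symm.measurableEmbedding b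
      rw [← hb, ← h3]
      rfl
  · -- `b + φ ∘ g ≤ φ`
    have h0 : ∀ y, rlim ⊤ w y ≤ ((-(b (g.symm y)) : ℝ) : EReal) + rlim ⊤ w (g.symm y) := by
      refine hle _ (hpsh.pull hg' (rel_symm hg' hrel)).usc fun ψ hψ y => ?_
      have h1 := hψle _ (Cls.pull hψ hg hgμ hbc hb hrel) (g.symm y)
      simp only [Homeomorph.apply_symm_apply] at h1
      calc ψ y = ((-(b (g.symm y)) : ℝ) : EReal) + ((b (g.symm y) : EReal) + ψ y) := by
            rw [← add_assoc, ← EReal.coe_add, neg_add_cancel, EReal.coe_zero, zero_add]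
        _ ≤ _ := add_le_add le_rfl h1
    have h1 := h0 (g x)
    rw [Homeomorph.symm_apply_apply] at h1
    calc (b x : EReal) + rlim ⊤ w (g x)
        ≤ (b x : EReal) + (((-(b x) : ℝ) : EReal) + rlim ⊤ w x) := add_le_add le_rfl h1
      _ = rlim ⊤ w x := by
          rw [← add_assoc, ← EReal.coe_add, add_neg_cancel, EReal.coe_zero, zero_add]
  · obtain ⟨M, hM⟩ := hin ψ hψ
    refine ⟨M, fun x => ?_⟩
    have h1 := hψle _ hM x
    calc ψ x = (((-M : ℝ) : EReal) + ψ x) + (M : EReal) := by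
          rw [add_comm, ← add_assoc, ← EReal.coe_add, add_neg_cancel, EReal.coe_zero, zero_add]
      _ ≤ rlim ⊤ w x + (M : EReal) := add_le_add h1 le_rfl

end Pool.Agent.H15.SK
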