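import Pool.Agent.H15.SK.Loc

/-!
# Affine changes of plurisubharmonic functions; a good radius at a point with Lelong number zero
-/

set_option autoImplicit false

open Set Filter Topology Metric MeasureTheory
open scoped Manifold ENNReal

namespace Pool.Agent.H15.SK

open Pool.Agent.H51.LZ

variable {n : ℕ}

/-- `c (t - M)` -/
noncomputable def aff (c M : ℝ) (t : EReal) : EReal := (c : EReal) * (t + ((-M : ℝ) : EReal))

theorem aff_bot {c : ℝ} (hc : 0 < c) (M : ℝ) : aff c M ⊥ = ⊥ := by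
  rw [aff, EReal.bot_add, EReal.coe_mul_bot_of_pos hc]

theorem aff_top {c : ℝ} (hc : 0 < c) (M : ℝ) : aff c M ⊤ = ⊤ := by
  rw [aff, EReal.top_add_coe, EReal.coe_mul_top_of_pos hc]

theorem aff_coe (c M t : ℝ) : aff c M (t : EReal) = ((c * (t - M) : ℝ) : EReal) := by
  rw [aff, ← EReal.coe_add, ← EReal.coe_mul]
  congr 1

theorem aff_ne_top {c : ℝ} (hc : 0 < c) (M : ℝ) {t : EReal} (ht : t ≠ ⊤) : aff c M t ≠ ⊤ := by
  induction t with
  | bot => rw [aff_bot hc]; exact bot_ne_top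
  | coe t => rw [aff_coe]; exact EReal.coe_ne_top _
  | top => exact absurd rfl ht

theorem aff_le_iff {c : ℝ} (hc : 0 < c) (M : ℝ) (t : EReal) (β : ℝ) :
    aff c M t ≤ (β : EReal) ↔ t ≤ ((β / c + M : ℝ) : EReal) := by
  induction t with
  | bot => rw [aff_bot hc]; simp
  | coe t =>
    rw [aff_coe, EReal.coe_le_coe_iff, EReal.coe_le_coe_iff]
    rw [← sub_le_iff_le_add, le_div_iff₀ hc, mul_comm]
  | top =>
    rw [aff_top hc]
    simp only [top_le_iff]
    constructor
    · intro h; exact absurd h (EReal.coe_ne_top _)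
    · intro h; exact absurd h (EReal.coe_ne_top _)

theorem aff_lt_iff {c : ℝ} (hc : 0 < c) (M : ℝ) (t : EReal) (β : ℝ) :
    aff c M t < (β : EReal) ↔ t < ((β / c + M : ℝ) : EReal) := by
  induction t with
  | bot => rw [aff_bot hc]; simp
  | coe t =>
    rw [aff_coe, EReal.coe_lt_coe_iff, EReal.coe_lt_coe_iff]
    rw [← sub_lt_iff_lt_add, lt_div_iff₀ hc, mul_comm]
  | top =>
    rw [aff_top hc]
    simp

theorem le_aff_iff {c : ℝ} (hc : 0 < c) (M : ℝ) (t : EReal) (β : ℝ) :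
    (β : EReal) ≤ aff c M t ↔ ((β / c + M : ℝ) : EReal) ≤ t := by
  rw [← not_lt, aff_lt_iff hc, not_lt]

theorem exp_aff {c : ℝ} (hc : 0 < c) (M u : ℝ) (t : EReal) :
    EReal.exp (-((c : EReal) * t)) =
      ENNReal.ofReal (Real.exp (c * (u - M))) * EReal.exp (-(aff c M ((u : EReal) + t))) := by
  have hpos : ENNReal.ofReal (Real.exp (c * (u - M))) ≠ 0 := by
    rw [ne_eq, ENNReal.ofReal_eq_zero, not_le]
    exact Real.exp_pos _
  induction t with
  | bot =>
    rw [EReal.coe_mul_bot_of_pos hc, EReal.add_bot, aff_bot hc, EReal.neg_bot, EReal.exp_top,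
      ENNReal.mul_top hpos]
  | coe t =>
    rw [← EReal.coe_mul, ← EReal.coe_neg, EReal.exp_coe, ← EReal.coe_add, aff_coe, ← EReal.coe_neg,
      EReal.exp_coe, ← ENNReal.ofReal_mul (Real.exp_nonneg _), ← Real.exp_add]
    congr 2
    ring
  | top =>
    rw [EReal.coe_mul_top_of_pos hc, EReal.coe_add_top, aff_top hc, EReal.neg_top, EReal.exp_bot,
      mul_zero]

theorem LP.aff {Ω : Set (Cn n)} {f : Cn n → EReal} (hf : LP Ω f) {c : ℝ} (hc : 0 < c) (M : ℝ) :
    LP Ω (fun z => aff c M (f z)) := by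
  refine ⟨?_, fun z hz => aff_ne_top hc M (hf.top z hz), fun a v hd b hb hbd => ?_⟩
  · intro z hz y hy
    obtain ⟨β, hβ1, hβ2⟩ := EReal.lt_iff_exists_real_btwn.1 hy
    rw [aff_lt_iff hc] at hβ1
    filter_upwards [hf.usc z hz _ hβ1] with w hw
    exact ((aff_lt_iff hc M _ β).2 hw).trans hβ2
  · have h1 : ContinuousOn (fun z => c⁻¹ • b z + M) (sphere 0 1) :=
      (hb.const_smul c⁻¹).add continuousOn_const
    have h2 := hf.sub a v hd (fun z => c⁻¹ • b z + M) h1 fun z hz => ?_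
    · rw [aff_le_iff hc]
      refine h2.trans (le_of_eq ?_)
      congr 1
      have hsm : ContinuousOn (fun z => c⁻¹ • b z) (sphere 0 1) := hb.const_smul c⁻¹
      have hI : CircleIntegrable (fun z => c⁻¹ • b z) 0 1 :=
        ContinuousOn.circleIntegrable zero_le_one hsm
      rw [Real.circleAverage_fun_add hI (circleIntegrable_const _ _ _), Real.circleAverage_const,
        Real.circleAverage_fun_smul, smul_eq_mul]
      ring
    · have h3 := hbd z hz
      rw [aff_le_iff hc] at h3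
      refine h3.trans (le_of_eq ?_)
      congr 1
      rw [smul_eq_mul]
      ring

/-- At a point with Lelong number zero there are arbitrarily small balls on which the function is
almost constant in the sense of maxima. -/
theorem radius {f : Cn n → EReal} {a : Cn n} {R₀ M₀ : ℝ} (hR₀ : 0 < R₀)
    (hM₀ : ∀ z ∈ closedBall a R₀, f z ≤ (M₀ : EReal))
    (hz : ∀ ε : ℝ, 0 < ε → ∀ᶠ r : ℝ in 𝓝[>] 0, ∃ y, ‖y - a‖ ≤ r ∧
      ((ε * Real.log r : ℝ) : EReal) ≤ f y) {δ : ℝ} (hδ : 0 < δ) :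
    ∃ r : ℝ, 0 < r ∧ 16 * r ≤ R₀ ∧ ∃ M : ℝ, (∀ z ∈ closedBall a (16 * r), f z ≤ (M : EReal)) ∧
      ∃ p ∈ closedBall a r, ((M - δ : ℝ) : EReal) ≤ f p := by
  by_contra hcon
  push Not at hcon
  have hstep : ∀ j : ℕ, ∀ z ∈ closedBall a (R₀ / 16 ^ j), f z ≤ ((M₀ - j * δ : ℝ) : EReal) := by
    intro j
    induction j with
    | zero =>
      intro z hz
      simpa using hM₀ z (by simpa using hz)
    | succ j ih =>
      intro z hz'
      have h1 : 16 * (R₀ / 16 ^ (j + 1)) = R₀ / 16 ^ j := by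
        rw [pow_succ]
        field_simp
      have h2 : R₀ / 16 ^ j ≤ R₀ := div_le_self hR₀.le (one_le_pow₀ (by norm_num))
      have h3 := hcon (R₀ / 16 ^ (j + 1)) (by positivity) (by rw [h1]; exact h2)
        (M₀ - j * δ) (by rw [h1]; exact ih) z hz'
      refine h3.le.trans (le_of_eq ?_)
      congr 1
      push_cast
      ring
  have hl : 0 < Real.log 16 := Real.log_pos (by norm_num)
  set ε : ℝ := δ / (2 * Real.log 16) with hε
  have hε0 : 0 < ε := by positivity
  have ht : Tendsto (fun j : ℕ => R₀ / 16 ^ j) atTop (𝓝[>] 0) := by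
    refine tendsto_nhdsWithin_iff.2 ⟨?_, Eventually.of_forall fun j => by
      rw [mem_Ioi]; positivity⟩
    have h1 : Tendsto (fun j : ℕ => R₀ * ((1 : ℝ) / 16) ^ j) atTop (𝓝 (R₀ * 0)) :=
      (tendsto_pow_atTop_nhds_zero_of_lt_one (by norm_num) (by norm_num)).const_mul R₀
    rw [mul_zero] at h1
    refine h1.congr fun j => ?_
    rw [div_pow, one_pow]
    ring
  have h1 := ht.eventually (hz ε hε0)
  obtain ⟨j₀, hj₀⟩ := exists_nat_gt (2 * (M₀ - ε * Real.log R₀) / δ)
  obtain ⟨j, hj, hjj⟩ := (h1.and (eventually_ge_atTop j₀)).exists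
  obtain ⟨y, hy1, hy2⟩ := hj
  have h2 := hy2.trans (hstep j y (by rw [mem_closedBall, dist_eq_norm]; exact hy1))
  rw [EReal.coe_le_coe_iff, Real.log_div hR₀.ne' (by positivity), Real.log_pow] at h2
  have h3 : ε * Real.log 16 = δ / 2 := by
    rw [hε]
    field_simp
  have h4 : ε * (Real.log R₀ - j * Real.log 16) = ε * Real.log R₀ - j * (δ / 2) := by
    rw [← h3]
    ring
  rw [h4] at h2
  have h5 : (j : ℝ) * δ ≤ 2 * (M₀ - ε * Real.log R₀) := by linarith
  rw [div_lt_iff₀ hδ] at hj₀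
  have h6 : (j₀ : ℝ) * δ ≤ j * δ := mul_le_mul_of_nonneg_right (by exact_mod_cast hjj) hδ.le
  linarith

end Pool.Agent.H15.SK
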