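import Pool.Agent.H15.SK.Vol
import Pool.Agent.H15.SK.Min
import Pool.Agent.H36.LZ.Fin

/-!
# The theorem with invariance under the stabiliser of the class
-/

set_option autoImplicit false

open Set Filter Topology Metric MeasureTheory
open scoped Manifold NNReal ENNReal

namespace Pool.Agent.H15.SK

open Pool.Agent.H51.LZ Pool.Agent.H36.LZ

variable {n : ℕ} {X : Type} [TopologicalSpace X] [ChartedSpace (Cn n) X]

/-- THE THEOREM: minimal singularities, invariance under all automorphisms preserving the class. -/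
theorem main_stab [T2Space X] [CompactSpace X] [ConnectedSpace X] [IsManifold 𝓘(ℂ, Cn n) 1 X]
    [MeasurableSpace X] [BorelSpace X] (hLEL : OrbitClosure n X) (hodd : OddCase n X)
    (Ω : VolumeForm n X) (d : ℕ) (g : X ≃ₜ X)
    (hg : MDifferentiable 𝓘(ℂ, Cn n) 𝓘(ℂ, Cn n) g)
    (hg' : MDifferentiable 𝓘(ℂ, Cn n) 𝓘(ℂ, Cn n) g.symm) (T : Currents n X)
    (hpos : ∀ p, Psh n (T.V p) (fun x => (T.u 0 p x : EReal)))
    (a : ℕ → X → ℝ) (ha : ∀ j, Continuous (a j))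
    (hrel : ∀ j < d, ∀ p q, Pluriharmonic n (T.V p ∩ g ⁻¹' T.V q)
      (fun x => T.u j q (g x) - T.u j p x - T.u (j + 1) p x - a j x))
    (hrel_top : ∀ p q, Pluriharmonic n (T.V p ∩ g ⁻¹' T.V q)
      (fun x => T.u d q (g x) - T.u d p x - a d x)) :
    ∃ (φ : X → EReal) (C : ℝ), 0 ≤ C ∧
      (∀ p, Psh n (T.V p) (fun x => (T.u d p x : EReal) + φ x)) ∧
      (∀ h : X ≃ₜ X, MDifferentiable 𝓘(ℂ, Cn n) 𝓘(ℂ, Cn n) h →
        MDifferentiable 𝓘(ℂ, Cn n) 𝓘(ℂ, Cn n) h.symm → ∀ b : X → ℝ, Continuous b →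
        (∀ p q, Pluriharmonic n (T.V p ∩ h ⁻¹' T.V q)
          (fun x => T.u d q (h x) - T.u d p x - b x)) →
        ∃ c : ℝ, ∀ x, φ x = ((b x - c : ℝ) : EReal) + φ (h x)) ∧
      (∀ ψ : X → EReal, (∀ p, Psh n (T.V p) (fun x => (T.u d p x : EReal) + ψ x)) →
        ∃ M : ℝ, ∀ x, ψ x ≤ φ x + (M : EReal)) ∧
      (∀ x, ZeroLelongAt n φ x) ∧
      (∀ K : Set X, IsClosed K → K.Nonempty → MapsTo g K K → ∃ x ∈ K, ((-C : ℝ) : EReal) ≤ φ x) ∧
      ∀ ν : Measure X, IsProbabilityMeasure ν → MeasurePreserving g ν ν →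
        ∫⁻ x, (-(φ x)).toENNReal ∂ν ≤ ENNReal.ofReal C := by
  obtain ⟨φ₀, c₀, C₀, h1, -, h3, h4, h5⟩ := main_any hLEL hodd Ω d g hg hg' T hpos a ha hrel hrel_top
  obtain ⟨μ, hμ, hgμ⟩ := exists_invariant_measure_all Ω
  have hprob : IsProbabilityMeasure μ := hμ.1
  obtain ⟨φ, p1, p2', p3⟩ := exists_min_all hμ T d h1
  have p2 : ∀ h : X ≃ₜ X, MDifferentiable 𝓘(ℂ, Cn n) 𝓘(ℂ, Cn n) h →
      MDifferentiable 𝓘(ℂ, Cn n) 𝓘(ℂ, Cn n) h.symm → ∀ b : X → ℝ, Continuous b →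
      (∀ p q, Pluriharmonic n (T.V p ∩ h ⁻¹' T.V q)
        (fun x => T.u d q (h x) - T.u d p x - b x)) →
      ∃ c : ℝ, ∀ x, φ x = ((b x - c : ℝ) : EReal) + φ (h x) := by
    intro h hh hh' b hbc hrelh
    refine ⟨∫ x, b x ∂μ, p2' h (hgμ h hh) hh hh' (fun x => b x - ∫ x, b x ∂μ)
      (hbc.sub continuous_const) ?_ fun p q =>
      ((hrelh p q).add (Plur.const _ (∫ x, b x ∂μ))).congr fun x _ => by ring⟩
    rw [integral_sub]
    · simp
    · exact hbc.integrable_of_hasCompactSupport (HasCompactSupport.of_compactSpace _)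
    · exact integrable_const _
  obtain ⟨M, hM⟩ := p3 φ₀ h1
  have hM0 : ∀ x, φ₀ x ≤ φ x + ((max M 0 : ℝ) : EReal) := fun x =>
    (hM x).trans (add_le_add le_rfl (by exact_mod_cast le_max_left M 0))
  refine ⟨φ, max C₀ 0 + max M 0, add_nonneg (le_max_right _ _) (le_max_right _ _), p1, p2, p3,
    fun x => zeroLelong_mono hM (h3 x), fun K hK hKne hKg => ?_, fun ν hν hgν => ?_⟩
  · obtain ⟨x, hx, hle⟩ := h4 K hK hKne hKg
    refine ⟨x, hx, le_trans ?_ (le_of_le_add (hle.trans (hM0 x)))⟩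
    exact_mod_cast (by linarith [le_max_left C₀ 0] : -(max C₀ 0 + max M 0) ≤ -C₀ - max M 0)
  · calc ∫⁻ x, (-(φ x)).toENNReal ∂ν
        ≤ ∫⁻ x, ((-(φ₀ x)).toENNReal + ENNReal.ofReal (max M 0)) ∂ν :=
          lintegral_mono fun x => neg_toENNReal_le (hM0 x)
      _ = ∫⁻ x, (-(φ₀ x)).toENNReal ∂ν + ENNReal.ofReal (max M 0) := by
          rw [lintegral_add_right _ measurable_const]
          simp
      _ ≤ ENNReal.ofReal (max C₀ 0) + ENNReal.ofReal (max M 0) :=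
          add_le_add ((h5 ν hν hgν).trans (ENNReal.ofReal_le_ofReal (le_max_left _ _))) le_rfl
      _ = ENNReal.ofReal (max C₀ 0 + max M 0) :=
          (ENNReal.ofReal_add (le_max_right _ _) (le_max_right _ _)).symm

end Pool.Agent.H15.SK
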