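import Pool.Agent.H51.LZ.Ch

/-!
# The sum of two plurisubharmonic functions
-/

set_option autoImplicit false

open Set Filter Topology Metric MeasureTheory
open scoped Manifold

namespace Pool.Agent.H15.SK

open Pool.Agent.H51.LZ

/-- a decreasing sequence of Lipschitz majorants -/
noncomputable def dm (K : Set ℂ) (F : ℂ → EReal) (k : ℕ) (x : ℂ) : ℝ :=
  sSup ((fun y => (max (F y) ((-k : ℝ) : EReal)).toReal - k * dist x y) '' K)

section dm

variable {K : Set ℂ} {F : ℂ → EReal} {B : ℝ}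

theorem trunc_coe {t : EReal} (ht : t ≠ ⊤) (k : ℝ) :
    (((max t (k : EReal)).toReal : ℝ) : EReal) = max t (k : EReal) := by
  refine EReal.coe_toReal ?_ ?_
  · rcases max_choice t (k : EReal) with h | h <;> rw [h]
    · exact ht
    · exact EReal.coe_ne_top _
  · exact ne_bot_of_le_ne_bot (EReal.coe_ne_bot k) (le_max_right _ _)

theorem trunc_le {t : EReal} {k c : ℝ} (ht : t ≤ (c : EReal)) (hk : k ≤ c) :
    (max t (k : EReal)).toReal ≤ c := by
  have h1 : t ≠ ⊤ := ne_top_of_le_ne_top (EReal.coe_ne_top c) ht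
  have h2 := trunc_coe h1 k
  have h3 : (((max t (k : EReal)).toReal : ℝ) : EReal) ≤ (c : EReal) := by
    rw [h2]
    exact max_le ht (by exact_mod_cast hk)
  exact_mod_cast h3

theorem dm_bdd (hB : ∀ y ∈ K, F y ≤ (B : EReal)) (hB0 : 0 ≤ B) (k : ℕ) (x : ℂ) :
    BddAbove ((fun y => (max (F y) ((-k : ℝ) : EReal)).toReal - k * dist x y) '' K) := by
  refine ⟨B, ?_⟩
  rintro _ ⟨y, hy, rfl⟩
  have h1 := trunc_le (k := -k) (hB y hy) (by have : (0 : ℝ) ≤ k := Nat.cast_nonneg k; linarith)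
  have h2 : 0 ≤ (k : ℝ) * dist x y := by positivity
  simp only
  linarith

theorem le_dm (hB : ∀ y ∈ K, F y ≤ (B : EReal)) (hB0 : 0 ≤ B) (k : ℕ) {x : ℂ} (hx : x ∈ K) :
    F x ≤ (dm K F k x : EReal) := by
  have h1 := le_csSup (dm_bdd hB hB0 k x) ⟨x, hx, rfl⟩
  simp only [dist_self, mul_zero, sub_zero] at h1
  have h2 : F x ≠ ⊤ := ne_top_of_le_ne_top (EReal.coe_ne_top B) (hB x hx)
  have h3 := trunc_coe h2 (-k)
  calc F x ≤ max (F x) ((-k : ℝ) : EReal) := le_max_left _ _
    _ = (((max (F x) ((-k : ℝ) : EReal)).toReal : ℝ) : EReal) := h3.symm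
    _ ≤ _ := EReal.coe_le_coe_iff.2 h1

theorem dm_continuous (hK : K.Nonempty) (hB : ∀ y ∈ K, F y ≤ (B : EReal)) (hB0 : 0 ≤ B) (k : ℕ) :
    Continuous (dm K F k) := by
  have h : ∀ x x' : ℂ, dm K F k x ≤ dm K F k x' + k * dist x x' := by
    intro x x'
    refine csSup_le (hK.image _) ?_
    rintro _ ⟨y, hy, rfl⟩
    have h1 := le_csSup (dm_bdd hB hB0 k x') ⟨y, hy, rfl⟩
    have h2 : dist x' y ≤ dist x x' + dist x y := by
      rw [dist_comm x x']
      exact dist_triangle _ _ _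
    have h3 : (k : ℝ) * dist x' y ≤ k * (dist x x' + dist x y) :=
      mul_le_mul_of_nonneg_left h2 (Nat.cast_nonneg k)
    have h4 : (max (F y) ((-k : ℝ) : EReal)).toReal - k * dist x' y ≤ dm K F k x' := h1
    simp only
    linarith
  have hL : LipschitzWith (k : NNReal) (dm K F k) := by
    refine LipschitzWith.of_le_add_mul _ fun x x' => ?_
    have := h x x'
    simpa using this
  exact hL.continuous

theorem dm_antitone (hK : K.Nonempty) (hB : ∀ y ∈ K, F y ≤ (B : EReal)) (hB0 : 0 ≤ B) {k k' : ℕ}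
    (hk : k ≤ k') (x : ℂ) : dm K F k' x ≤ dm K F k x := by
  refine csSup_le (hK.image _) ?_
  rintro _ ⟨y, hy, rfl⟩
  have h1 := le_csSup (dm_bdd hB hB0 k x) ⟨y, hy, rfl⟩
  refine le_trans ?_ h1
  have hkk : (k : ℝ) ≤ k' := by exact_mod_cast hk
  have h2 : F y ≠ ⊤ := ne_top_of_le_ne_top (EReal.coe_ne_top B) (hB y hy)
  have h3 : (max (F y) ((-k' : ℝ) : EReal)).toReal ≤ (max (F y) ((-k : ℝ) : EReal)).toReal := by
    rw [← EReal.coe_le_coe_iff, trunc_coe h2, trunc_coe h2]
    exact max_le_max le_rfl (by exact_mod_cast neg_le_neg hkk)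
  have h4 : (k : ℝ) * dist x y ≤ k' * dist x y := mul_le_mul_of_nonneg_right hkk dist_nonneg
  simp only
  linarith

theorem dm_lt (hB : ∀ y ∈ K, F y ≤ (B : EReal)) (husc : UpperSemicontinuousOn F K)
    {x : ℂ} (hx : x ∈ K) {t : ℝ} (ht : F x < (t : EReal)) : ∃ k : ℕ, dm K F k x < t := by
  obtain ⟨t', ht1, ht2⟩ := EReal.lt_iff_exists_real_btwn.1 ht
  have ht2' : t' < t := by exact_mod_cast ht2
  have h1 := husc x hx t' ht1
  rw [eventually_nhdsWithin_iff, Metric.eventually_nhds_iff] at h1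
  obtain ⟨δ, hδ, h1⟩ := h1
  obtain ⟨k, hk⟩ := exists_nat_gt (max (-t') ((max B 0 - t') / δ))
  have hk1 : -t' < k := (le_max_left _ _).trans_lt hk
  have hk2 : (max B 0 - t') / δ < k := (le_max_right _ _).trans_lt hk
  rw [div_lt_iff₀ hδ] at hk2
  refine ⟨k, lt_of_le_of_lt ?_ ht2'⟩
  refine csSup_le (Set.Nonempty.image _ ⟨x, hx⟩) ?_
  rintro _ ⟨y, hy, rfl⟩
  simp only
  by_cases hd : dist y x < δ
  · have h4 : F y ≤ (t' : EReal) := (h1 hd hy).le
    have h5 := trunc_le (k := -k) h4 (by linarith)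
    have h6 : 0 ≤ (k : ℝ) * dist x y := by positivity
    linarith
  · rw [not_lt, dist_comm] at hd
    have hB' : F y ≤ ((max B 0 : ℝ) : EReal) :=
      (hB y hy).trans (by exact_mod_cast le_max_left _ _)
    have h5 := trunc_le (k := -k) hB' (by
      have : (0 : ℝ) ≤ k := Nat.cast_nonneg k
      have := le_max_right B 0
      linarith)
    have h6 : (k : ℝ) * δ ≤ k * dist x y := mul_le_mul_of_nonneg_left hd (Nat.cast_nonneg k)
    linarith

end dm

/-- two numbers with sum less than `c` -/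
theorem exists_split {x y : EReal} (hx : x ≠ ⊤) (hy : y ≠ ⊤) {c : ℝ} (h : x + y < (c : EReal)) :
    ∃ s t : ℝ, x < (s : EReal) ∧ y < (t : EReal) ∧ s + t < c := by
  induction x with
  | bot =>
    obtain ⟨t, ht⟩ : ∃ t : ℝ, y < (t : EReal) := by
      induction y with
      | bot => exact ⟨0, EReal.bot_lt_coe 0⟩
      | coe y => exact ⟨y + 1, by exact_mod_cast (by linarith : y < y + 1)⟩
      | top => exact absurd rfl hy
    exact ⟨c - t - 1, t, EReal.bot_lt_coe _, ht, by linarith⟩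
  | coe x =>
    induction y with
    | bot =>
      exact ⟨x + 1, c - x - 2, by exact_mod_cast (by linarith : x < x + 1), EReal.bot_lt_coe _,
        by linarith⟩
    | coe y =>
      have h1 : x + y < c := by exact_mod_cast h
      refine ⟨x + (c - x - y) / 3, y + (c - x - y) / 3, ?_, ?_, by linarith⟩
      · exact EReal.coe_lt_coe_iff.2 (by linarith)
      · exact EReal.coe_lt_coe_iff.2 (by linarith)
    | top => exact absurd rfl hy
  | top => exact absurd rfl hx

variable {n : ℕ} {X : Type} [TopologicalSpace X] [ChartedSpace (Cn n) X]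

/-- **The sum of two plurisubharmonic functions is plurisubharmonic.** -/
theorem Psh.add {U : Set X} {f₁ f₂ : X → EReal} (h₁ : Psh n U f₁) (h₂ : Psh n U f₂) :
    Psh n U (fun x => f₁ x + f₂ x) := by
  refine ⟨?_, fun x hx => (EReal.add_lt_top (h₁.2.1 x hx) (h₂.2.1 x hx)).ne,
    fun h hd b hb hbd => ?_⟩
  · exact h₁.1.add' h₂.1 fun x hx => EReal.continuousAt_add (Or.inl (h₁.2.1 x hx))
      (Or.inr (h₂.2.1 x hx))
  · set K : Set ℂ := sphere (0 : ℂ) 1 with hK
    have hKc : IsCompact K := isCompact_sphere _ _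
    have hKne : K.Nonempty := ⟨1, by simp [hK]⟩
    have hmap : MapsTo h K U := fun z hz => hd.2 z (by
      have : ‖z‖ = 1 := by simpa [hK] using hz
      exact this.le)
    have hhc : ContinuousOn h K := hd.continuousOn.mono sphere_subset_closedBall
    have husc : ∀ {f : X → EReal}, Psh n U f → UpperSemicontinuousOn (fun z => f (h z)) K := by
      intro f hf z hz y hy
      have h3 : Tendsto h (𝓝[K] z) (𝓝[U] (h z)) :=
        tendsto_nhdsWithin_iff.2 ⟨hhc z hz, by
          filter_upwards [self_mem_nhdsWithin] with w hw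
          exact hmap hw⟩
      exact h3.eventually (hf.1 (h z) (hmap hz) y hy)
    have hbdd : ∀ {f : X → EReal}, Psh n U f → ∃ B : ℝ, 0 ≤ B ∧ ∀ z ∈ K, f (h z) ≤ (B : EReal) := by
      intro f hf
      obtain ⟨z₁, hz₁, hmax⟩ := (husc hf).exists_isMaxOn hKne hKc
      refine ⟨max (f (h z₁)).toReal 0, le_max_right _ _, fun z hz => ?_⟩
      exact (hmax hz).trans ((EReal.le_coe_toReal (hf.2.1 _ (hmap hz₁))).trans
        (by exact_mod_cast le_max_left _ _))
    obtain ⟨B₁, hB₁0, hB₁⟩ := hbdd h₁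
    obtain ⟨B₂, hB₂0, hB₂⟩ := hbdd h₂
    -- the majorants
    set b₁ : ℕ → ℂ → ℝ := dm K (fun z => f₁ (h z)) with hb₁
    set b₂ : ℕ → ℂ → ℝ := dm K (fun z => f₂ (h z)) with hb₂
    have hc₁ : ∀ k, Continuous (b₁ k) := dm_continuous hKne hB₁ hB₁0
    have hc₂ : ∀ k, Continuous (b₂ k) := dm_continuous hKne hB₂ hB₂0
    have key : ∀ ε : ℝ, 0 < ε → f₁ (h 0) + f₂ (h 0) ≤
        ((Real.circleAverage b 0 1 + ε : ℝ) : EReal) := by
      intro ε hε
      -- uniform in the point
      have hpt : ∀ z ∈ K, ∃ k : ℕ, ∀ᶠ w in 𝓝[K] z, b₁ k w + b₂ k w < b w + ε := by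
        intro z hz
        have h3 : f₁ (h z) + f₂ (h z) < ((b z + ε : ℝ) : EReal) :=
          lt_of_le_of_lt (hbd z hz) (EReal.coe_lt_coe_iff.2 (by linarith))
        obtain ⟨s, t, hs, ht, hst⟩ := exists_split (h₁.2.1 _ (hmap hz)) (h₂.2.1 _ (hmap hz)) h3
        obtain ⟨k₁, hk₁⟩ := dm_lt hB₁ (husc h₁) hz hs
        obtain ⟨k₂, hk₂⟩ := dm_lt hB₂ (husc h₂) hz ht
        refine ⟨max k₁ k₂, ?_⟩
        have h4 : b₁ (max k₁ k₂) z + b₂ (max k₁ k₂) z < b z + ε := by
          have h5 := dm_antitone hKne hB₁ hB₁0 (le_max_left k₁ k₂) z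
          have h6 := dm_antitone hKne hB₂ hB₂0 (le_max_right k₁ k₂) z
          simp only [hb₁, hb₂]
          linarith
        have h7 : ContinuousWithinAt (fun w => b₁ (max k₁ k₂) w + b₂ (max k₁ k₂) w) K z :=
          ((hc₁ _).add (hc₂ _)).continuousWithinAt
        have h8 : ContinuousWithinAt (fun w => b w + ε) K z := (hb z hz).add continuousWithinAt_const
        exact h7.eventually_lt h8 h4
      choose! k hk using hpt
      obtain ⟨t, htK, ht⟩ := hKc.elim_nhdsWithin_subcover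
        (fun z => {w | b₁ (k z) w + b₂ (k z) w < b w + ε}) (fun z hz => hk z hz)
      obtain ⟨N, hN⟩ : ∃ N : ℕ, ∀ z ∈ t, k z ≤ N := ⟨t.sup k, fun z hz => Finset.le_sup hz⟩
      have hall : ∀ w ∈ K, b₁ N w + b₂ N w ≤ b w + ε := by
        intro w hw
        obtain ⟨z, hz, hzw⟩ := mem_iUnion₂.1 (ht hw)
        have h5 := dm_antitone hKne hB₁ hB₁0 (hN z hz) w
        have h6 := dm_antitone hKne hB₂ hB₂0 (hN z hz) w
        have h7 : b₁ (k z) w + b₂ (k z) w < b w + ε := hzw
        simp only [hb₁, hb₂] at h7 ⊢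
        linarith
      have e1 := h₁.2.2 h hd (b₁ N) (hc₁ N).continuousOn fun z hz => le_dm hB₁ hB₁0 N hz
      have e2 := h₂.2.2 h hd (b₂ N) (hc₂ N).continuousOn fun z hz => le_dm hB₂ hB₂0 N hz
      calc f₁ (h 0) + f₂ (h 0) ≤ ((Real.circleAverage (b₁ N) 0 1 : ℝ) : EReal) +
            ((Real.circleAverage (b₂ N) 0 1 : ℝ) : EReal) := add_le_add e1 e2
        _ = ((Real.circleAverage (fun z => b₁ N z + b₂ N z) 0 1 : ℝ) : EReal) := by
            rw [← EReal.coe_add, Real.circleAverage_fun_add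
              (ContinuousOn.circleIntegrable zero_le_one (hc₁ N).continuousOn)
              (ContinuousOn.circleIntegrable zero_le_one (hc₂ N).continuousOn)]
        _ ≤ ((Real.circleAverage (fun z => b z + ε) 0 1 : ℝ) : EReal) := by
            rw [EReal.coe_le_coe_iff]
            refine Real.circleAverage_mono
              (ContinuousOn.circleIntegrable zero_le_one ((hc₁ N).add (hc₂ N)).continuousOn)
              (ContinuousOn.circleIntegrable zero_le_one (hb.add continuousOn_const)) ?_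
            intro z hz
            rw [abs_one] at hz
            exact hall z hz
        _ = ((Real.circleAverage b 0 1 + ε : ℝ) : EReal) := by
            rw [Real.circleAverage_fun_add (ContinuousOn.circleIntegrable zero_le_one hb)
              (circleIntegrable_const _ _ _), Real.circleAverage_const]
    -- let `ε` tend to zero
    refine EReal.le_of_forall_lt_iff_le.1 fun c hc => ?_
    have hc' : Real.circleAverage b 0 1 < c := by exact_mod_cast hc
    refine (key (c - Real.circleAverage b 0 1) (by linarith)).trans (le_of_eq ?_)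
    congr 1
    ring

end Pool.Agent.H15.SK
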