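import Pool.Agent.H78.LZ.Vol

/-!
# The measure of a holomorphic volume form is invariant under all automorphisms
-/

set_option autoImplicit false
set_option linter.unusedSectionVars false

open Set Filter Topology Metric MeasureTheory
open scoped Manifold ContDiff NNReal ENNReal

namespace Pool.Agent.H15.SK

open Pool.Agent.H51.LZ Pool.Agent.H36.LZ Pool.Agent.H78.LZ

variable {n : ℕ} {X : Type} [TopologicalSpace X] [ChartedSpace (Cn n) X]

section meas

variable [MeasurableSpace X] [BorelSpace X] [IsManifold 𝓘(ℂ, Cn n) 1 X]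

/-- THE INVARIANT MEASURE, for all automorphisms. -/
theorem exists_invariant_measure_all [T2Space X] [CompactSpace X] [ConnectedSpace X]
    (W : VolumeForm n X) :
    ∃ μ : Measure X, GoodMeasure n μ ∧ ∀ g : X ≃ₜ X,
      MDifferentiable 𝓘(ℂ, Cn n) 𝓘(ℂ, Cn n) g → MeasurePreserving g μ μ := by
  classical
  obtain ⟨m, e, D, heA, hDm, hDd, hDu, hDs, hDf⟩ := exists_cover (n := n) W
  -- the measure
  let μ0 : Measure X := ∑ i, Measure.map (e i).symm
    ((volume.withDensity (den W (e i))).restrict ((e i).target ∩ (e i).symm ⁻¹' D i))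
  have happ : ∀ A, MeasurableSet A → μ0 A = ∑ i, nu W (e i) (D i ∩ A) := by
    intro A hA
    change (∑ i, Measure.map (e i).symm
      ((volume.withDensity (den W (e i))).restrict ((e i).target ∩ (e i).symm ⁻¹' D i))) A = _
    rw [Measure.finsetSum_apply]
    refine Finset.sum_congr rfl fun i _ => ?_
    have hae : AEMeasurable (e i).symm
        ((volume.withDensity (den W (e i))).restrict ((e i).target ∩ (e i).symm ⁻¹' D i)) :=
      ((e i).continuousOn_symm.mono inter_subset_left).aemeasurable (meas_pull (e i) (hDm i))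
    rw [Measure.map_apply_of_aemeasurable hae hA, Measure.restrict_apply' (meas_pull (e i) (hDm i))]
    have hset : (e i).symm ⁻¹' A ∩ ((e i).target ∩ (e i).symm ⁻¹' D i) =
        (e i).target ∩ (e i).symm ⁻¹' (D i ∩ A) := by
      ext z
      simp only [mem_inter_iff, mem_preimage]
      tauto
    rw [hset, withDensity_apply _ (meas_pull (e i) ((hDm i).inter hA))]
    rfl
  -- its value on subsets of charts
  have hP : ∀ (a : OpenPartialHomeomorph X (Cn n)), a ∈ atlas (Cn n) X → ∀ A, MeasurableSet A →
      A ⊆ a.source → μ0 A = nu W a A := by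
    intro a ha A hA hAa
    rw [happ A hA, nu_add W a hDm hDd hDu hA]
    refine Finset.sum_congr rfl fun i _ => ?_
    exact nu_chart W ha (heA i) ((hDm i).inter hA) (inter_subset_right.trans hAa)
      (inter_subset_left.trans (hDs i))
  -- total mass
  have hfin : μ0 univ ≠ ⊤ := by
    rw [happ univ MeasurableSet.univ]
    refine (ENNReal.sum_lt_top.2 fun i _ => ?_).ne
    rw [inter_univ]
    exact hDf i
  have hpos : μ0 univ ≠ 0 := by
    intro h0
    obtain ⟨x⟩ := (inferInstance : Nonempty X)
    have hem : chartAt (Cn n) x ∈ atlas (Cn n) X := chart_mem_atlas _ _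
    have h1 : μ0 (chartAt (Cn n) x).source = 0 := measure_mono_null (subset_univ _) h0
    rw [hP _ hem _ (chartAt (Cn n) x).open_source.measurableSet subset_rfl, nu] at h1
    have h2 : (chartAt (Cn n) x).target ∩ (chartAt (Cn n) x).symm ⁻¹' (chartAt (Cn n) x).source =
        (chartAt (Cn n) x).target :=
      inter_eq_left.2 fun z hz => (chartAt (Cn n) x).map_target hz
    rw [h2] at h1
    have hopen := (chartAt (Cn n) x).open_target
    have hmeas : AEMeasurable (den W (chartAt (Cn n) x))
        (volume.restrict (chartAt (Cn n) x).target) := by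
      have hc : ContinuousOn (fun z => ENNReal.ofReal (‖W.f (chartAt (Cn n) x) z‖ ^ 2))
          (chartAt (Cn n) x).target :=
        ENNReal.continuous_ofReal.comp_continuousOn
          (((W.holo _ hem).continuousOn.norm).pow 2)
      exact hc.aemeasurable hopen.measurableSet
    rw [lintegral_eq_zero_iff' hmeas] at h1
    have h3 : ∀ᵐ z ∂(volume.restrict (chartAt (Cn n) x).target), False := by
      rw [ae_restrict_iff' hopen.measurableSet]
      have h1' := (ae_restrict_iff' hopen.measurableSet).1 h1
      filter_upwards [h1'] with z hz hzt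
      have h4 := hz hzt
      have h5 : 0 < ‖W.f (chartAt (Cn n) x) z‖ ^ 2 := by
        have := norm_pos_iff.2 (W.ne_zero _ hem z hzt)
        positivity
      have h6 : ENNReal.ofReal (‖W.f (chartAt (Cn n) x) z‖ ^ 2) = 0 := h4
      rw [ENNReal.ofReal_eq_zero] at h6
      linarith
    have h7 : volume.restrict (chartAt (Cn n) x).target = 0 := by
      rw [← ae_eq_bot]
      exact Filter.eventually_false_iff_eq_bot.1 h3
    rw [Measure.restrict_eq_zero] at h7
    exact (hopen.measure_pos volume ⟨_, (chartAt (Cn n) x).map_source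
      (mem_chart_source _ _)⟩).ne' h7
  have hinv : ∀ g : X ≃ₜ X, MDifferentiable 𝓘(ℂ, Cn n) 𝓘(ℂ, Cn n) g → ∀ A, MeasurableSet A →
      μ0 (g ⁻¹' A) = μ0 A := by
    intro g hg
    obtain ⟨c0, hc0⟩ := exists_coef_const W hg
    -- transformation rule
    have hT : ∀ A, MeasurableSet A → μ0 (g '' A) = ENNReal.ofReal (‖c0‖ ^ 2) * μ0 A := by
      intro A hA
      have hgm : ∀ B, MeasurableSet B → MeasurableSet (g '' B) := fun B hB =>
        g.toMeasurableEquiv.measurableSet_image.2 hB
      have hgp : ∀ B, MeasurableSet B → MeasurableSet (g ⁻¹' B) := fun B hB =>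
        g.continuous.measurable hB
      rw [happ _ (hgm A hA), happ A hA, Finset.mul_sum]
      have e1 : ∀ j, nu W (e j) (D j ∩ g '' A) =
          ∑ i, ENNReal.ofReal (‖c0‖ ^ 2) * nu W (e i) (g ⁻¹' D j ∩ (D i ∩ A)) := by
        intro j
        rw [nu_add W (e j) (P := fun i => g '' D i) (fun i => hgm _ (hDm i)) ?_ ?_
          ((hDm j).inter (hgm A hA))]
        · refine Finset.sum_congr rfl fun i _ => ?_
          have hset : g '' D i ∩ (D j ∩ g '' A) = g '' (g ⁻¹' D j ∩ (D i ∩ A)) := by
            ext y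
            constructor
            · rintro ⟨⟨x, hx, rfl⟩, hy, x', hx', hxx⟩
              have : x' = x := g.injective hxx
              subst this
              exact ⟨x', ⟨hy, hx, hx'⟩, rfl⟩
            · rintro ⟨x, ⟨hy, hx, hx'⟩, rfl⟩
              exact ⟨mem_image_of_mem g hx, hy, mem_image_of_mem g hx'⟩
          rw [hset]
          exact change W (heA i) (heA j) hg ((hgp _ (hDm j)).inter ((hDm i).inter hA))
            (fun x hx => hDs i hx.2.1) (fun x hx => hDs j hx.1) (fun x _ => by rw [hc0])
        · intro i j hij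
          exact (disjoint_image_iff g.injective).2 (hDd hij)
        · rw [← image_iUnion, hDu, image_univ, g.surjective.range_eq]
      simp only [e1]
      rw [Finset.sum_comm]
      refine Finset.sum_congr rfl fun i _ => ?_
      rw [← Finset.mul_sum, ← nu_add W (e i) (P := fun j => g ⁻¹' D j) (fun j => hgp _ (hDm j)) ?_ ?_
        ((hDm i).inter hA)]
      · intro j k hjk
        exact (hDd hjk).preimage g
      · rw [← preimage_iUnion, hDu, preimage_univ]
    -- `|c| = 1`
    have hc1 : ENNReal.ofReal (‖c0‖ ^ 2) = 1 := by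
      have h := hT univ MeasurableSet.univ
      rw [image_univ, g.surjective.range_eq] at h
      have h2 : 1 * μ0 univ = ENNReal.ofReal (‖c0‖ ^ 2) * μ0 univ := by rw [one_mul]; exact h
      exact ((ENNReal.mul_left_inj hpos hfin).1 h2).symm
    intro A hA
    have h := hT (g ⁻¹' A) (g.continuous.measurable hA)
    rw [image_preimage_eq A g.surjective, hc1, one_mul] at h
    exact h.symm
  refine ⟨(μ0 univ)⁻¹ • μ0, ⟨⟨?_⟩, fun x => ?_⟩, fun g hg => ⟨g.continuous.measurable, ?_⟩⟩
  · rw [Measure.smul_apply, smul_eq_mul, ENNReal.inv_mul_cancel hpos hfin]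
  · obtain ⟨O, hO, hxO, hOs, C, hC, -⟩ := exists_small (n := n) W x
    refine ⟨O, hO, hxO, hOs, ((μ0 univ)⁻¹).toNNReal * C, ?_⟩
    rw [Measure.le_iff]
    intro B hB
    have hae : AEMeasurable (chartAt (Cn n) x) (((μ0 univ)⁻¹ • μ0).restrict O) :=
      ((chartAt (Cn n) x).continuousOn.mono hOs).aemeasurable hO.measurableSet
    rw [Measure.map_apply_of_aemeasurable hae hB, Measure.restrict_apply' hO.measurableSet,
      Measure.smul_apply, smul_eq_mul]
    have hm := meas_push (chartAt (Cn n) x) hO hOs hB
    rw [hP _ (chart_mem_atlas _ _) _ hm (inter_subset_right.trans hOs)]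
    have hle : nu W (chartAt (Cn n) x) ((chartAt (Cn n) x) ⁻¹' B ∩ O) ≤ C * volume B := by
      calc nu W (chartAt (Cn n) x) ((chartAt (Cn n) x) ⁻¹' B ∩ O)
          ≤ ∫⁻ _ in (chartAt (Cn n) x).target ∩
              (chartAt (Cn n) x).symm ⁻¹' ((chartAt (Cn n) x) ⁻¹' B ∩ O), (C : ℝ≥0∞) :=
            setLIntegral_mono' (meas_pull _ hm) fun z hz => hC z hz.1 hz.2.2
        _ = C * volume ((chartAt (Cn n) x).target ∩
              (chartAt (Cn n) x).symm ⁻¹' ((chartAt (Cn n) x) ⁻¹' B ∩ O)) := setLIntegral_const _ _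
        _ ≤ C * volume B := by
            gcongr
            intro z hz
            have h1 : (chartAt (Cn n) x) ((chartAt (Cn n) x).symm z) ∈ B := hz.2.1
            rwa [(chartAt (Cn n) x).right_inv hz.1] at h1
    calc (μ0 univ)⁻¹ * nu W (chartAt (Cn n) x) ((chartAt (Cn n) x) ⁻¹' B ∩ O)
        ≤ (μ0 univ)⁻¹ * (C * volume B) := by gcongr
      _ = ((((μ0 univ)⁻¹).toNNReal * C : ℝ≥0) • (volume : Measure (Cn n))) B := by
          rw [Measure.smul_apply, ENNReal.smul_def, smul_eq_mul, ENNReal.coe_mul,
            ENNReal.coe_toNNReal (ENNReal.inv_ne_top.2 hpos), mul_assoc]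
  · ext A hA
    rw [Measure.map_apply g.continuous.measurable hA, Measure.smul_apply, Measure.smul_apply,
      hinv g hg A hA]

end meas

end Pool.Agent.H15.SK
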